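import Pool.Agent.Lib.MP_630b78_co.EH.Defs

/-!
# Lattice paths in rectangles: definitions

A path is a list of letters; `true` is a north step, `false` is an east step.
-/

namespace TPath

open MvPolynomial EllHall

section paths

/-- the words with `n` letters -/
def words (n : ℕ) : Finset (List Bool) := Finset.univ.map ⟨fun f : Fin n → Bool => List.ofFn f, List.ofFn_injective⟩

/-- The paths from `(0, 0)` to `(a k, b k)` which are strictly above the diagonal `a y = b x` except at their ends: every prefix
`p` of `w` other than the empty word and `w` itself ends strictly above the diagonal. -/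
def prim (a b k : ℕ) : Finset (List Bool) :=
  (words (a * k + b * k)).filter fun w => w.count true = b * k ∧ w.count false = a * k ∧
    ∀ p ∈ w.inits, p ≠ [] → p ≠ w → b * p.count false < a * p.count true

/-- the lengths of the vertical runs of a path on its vertical lines, also the empty ones; `m` steps are in front of the path -/
def vr : ℕ → List Bool → List ℕ
  | m, [] => [m]
  | m, true :: w => vr (m + 1) w
  | m, false :: w => m :: vr 0 w

/-- The number of unit cells `[x, x+1] × [y, y+1]` which are below the path and weakly above the diagonal `a y = b x`, that is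
`b (x + 1) ≤ a y`; the path starts in the point `(e, n)`. -/
def area (a b : ℕ) : ℕ → ℕ → List Bool → ℕ
  | _, _, [] => 0
  | n, e, true :: w => area a b (n + 1) e w
  | n, e, false :: w => ((Finset.range n).filter fun y => b * (e + 1) ≤ a * y).card + area a b n (e + 1) w

/-- `S_k = ∑_w q^(area w) ∏_i e_(v_i)` over the paths in the rectangle `a k × b k` which are strictly above the diagonal except at
their ends; `v_i` are the lengths of the vertical runs. -/
noncomputable def S (a b k : ℕ) : Polynomial (MvPolynomial ℕ ℚ) :=
  ∑ w ∈ prim a b k, Polynomial.X ^ area a b 0 0 w * Polynomial.C (((vr 0 w).map (ee ℚ)).prod)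

/-- `F = ∑_μ c_μ ∏_i S_(μ_i)` for `c_μ ∈ ℕ[q]`; this belongs to the seed `∑_μ c_μ (-1)^(d - ℓ(μ)) h_μ`. -/
noncomputable def F (a b : ℕ) {d : ℕ} (c : Nat.Partition d → Polynomial ℕ) : Polynomial (MvPolynomial ℕ ℚ) :=
  ∑ μ : Nat.Partition d, (c μ).map (Nat.castRingHom (MvPolynomial ℕ ℚ)) * (μ.parts.map (S a b)).prod

/-- reversal of a word, with the two letters exchanged -/
def rs (w : List Bool) : List Bool := (w.map not).reverse

/-- the number of unit cells below a path which starts in height `n` -/
def ar : ℕ → List Bool → ℕ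
  | _, [] => 0
  | n, true :: w => ar (n + 1) w
  | n, false :: w => n + ar n w

/-- the number of unit cells in the rectangle `a k × b k` whose lower right corner is strictly below the diagonal -/
def low (a b k : ℕ) : ℕ :=
  ∑ e ∈ Finset.range (a * k), ((Finset.range (b * k)).filter fun y => a * y < b * (e + 1)).card

/-- every prefix has at least as many north steps as east steps -/
def Nonneg (w : List Bool) : Prop := ∀ p, p <+: w → p.count false ≤ p.count true

/-- a Dyck path in a square -/
def Dyck (w : List Bool) : Prop := Nonneg w ∧ w.count true = w.count false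

/-- `w = w_0 N w_1 N ... N w_D` and `w' = w_0' N w_1' N ... N w_D'` with Dyck paths `w_i`; `w_i'` is the reflection of `w_i` -/
inductive Rel : List Bool → List Bool → Prop
  | base (u : List Bool) : Dyck u → Rel u (rs u)
  | step (u v v' : List Bool) : Dyck u → Rel v v' → Rel (u ++ true :: v) (rs u ++ true :: v')

/-- the path `w`, started in `(e, n)`, stays weakly above the boundary `y = φ x` -/
def Above (φ : ℕ → ℕ) (n e : ℕ) (w : List Bool) : Prop := ∀ p, p <+: w → φ (e + p.count false) ≤ n + p.count true

/-- the boundary of the paths in `prim a b k` -/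
def bdry (a b k i : ℕ) : ℕ := if i = 0 then 0 else if i = a * k then b * k else b * i / a + 1

/-- a functional on multisets of numbers which ignores zeros and is monotone -/
structure Mon (f : Multiset ℕ → ℕ) : Prop where
  zero : ∀ α, f (0 ::ₘ α) = f α
  succ : ∀ x α, f (x ::ₘ α) ≤ f ((x + 1) ::ₘ α)

theorem Mon.add {f : Multiset ℕ → ℕ} (hf : Mon f) (γ : Multiset ℕ) : Mon fun α => f (α + γ) :=
  ⟨fun α => by simp only [Multiset.cons_add]; exact hf.zero _, fun x α => by simp only [Multiset.cons_add]; exact hf.succ _ _⟩

theorem mem_words {n : ℕ} {w : List Bool} : w ∈ words n ↔ w.length = n := by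
  unfold words
  rw [Finset.mem_map]
  constructor
  · rintro ⟨f, -, rfl⟩
    exact List.length_ofFn
  · rintro rfl
    exact ⟨w.get, Finset.mem_univ _, List.ofFn_get w⟩

theorem prefix_app {p x y : List Bool} : p <+: x ++ y ↔ p <+: x ∨ ∃ r, r <+: y ∧ p = x ++ r := by
  constructor
  · rintro ⟨t, ht⟩
    rcases List.append_eq_append_iff.1 ht with ⟨c, h1, h2⟩ | ⟨c, h1, h2⟩
    · exact Or.inl ⟨c, h1.symm⟩
    · exact Or.inr ⟨c, ⟨t, h2.symm⟩, h1⟩
  · rintro (h | ⟨r, h, rfl⟩)
    · exact h.trans (List.prefix_append _ _)
    · exact (List.prefix_append_right_inj x).2 h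

theorem rs_rs (w : List Bool) : rs (rs w) = w := by
  unfold rs
  rw [List.map_reverse, List.reverse_reverse, List.map_map]
  have h : (not ∘ not) = id := by funext b; cases b <;> rfl
  rw [h, List.map_id]

theorem rs_append (x y : List Bool) : rs (x ++ y) = rs y ++ rs x := by
  unfold rs
  rw [List.map_append, List.reverse_append]

theorem rs_cons (a : Bool) (x : List Bool) : rs (a :: x) = rs x ++ [!a] := by
  unfold rs
  rw [List.map_cons, List.reverse_cons]

theorem rs_count_true (w : List Bool) : (rs w).count true = w.count false := by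
  induction w with
  | nil => rfl
  | cons a w ih => rw [rs_cons, List.count_append, ih]; cases a <;> simp

theorem rs_count_false (w : List Bool) : (rs w).count false = w.count true := by
  induction w with
  | nil => rfl
  | cons a w ih => rw [rs_cons, List.count_append, ih]; cases a <;> simp

end paths

section symm

/-- the determinant `det (h_(c_i + j))` with `n` rows -/
noncomputable def DT (n : ℕ) (c : ℕ → ℤ) : MvPolynomial ℕ ℚ := Matrix.det (Matrix.of fun i j : Fin n => hz ℚ (c i + (j : ℤ)))

/-- the Schur function of the partition with the `n` rows `ν_0 + 1, ν_1 + 1, ...` -/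
noncomputable def SX (n : ℕ) (ν : ℕ → ℕ) : MvPolynomial ℕ ℚ := DT n fun i => (ν i : ℤ) + 1 - (i : ℤ)

/-- one box less in the rows of `s` -/
def mi (ν : ℕ → ℕ) (s : Finset ℕ) (i : ℕ) : ℕ := ν i - if i ∈ s then 1 else 0

/-- the same for integers -/
def mz (c : ℕ → ℤ) (s : Finset ℕ) (i : ℕ) : ℤ := c i - if i ∈ s then 1 else 0

/-- the shift `p_k ↦ p_k - (-w)^k` -/
noncomputable def psi : MvPolynomial ℕ ℚ →ₐ[ℚ] Polynomial (MvPolynomial ℕ ℚ) :=
  aeval fun k => Polynomial.C (X k) + (-1) ^ k * Polynomial.X ^ (k + 1)

/-- the polynomial `∑ X^n ∏ e_x` of a family of pairs -/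
noncomputable def pol (L : Multiset (ℕ × Multiset ℕ)) : Polynomial (MvPolynomial ℕ ℚ) :=
  (L.map fun x => Polynomial.X ^ x.1 * Polynomial.C ((x.2.map (ee ℚ)).prod)).sum

/-- the number of the nonzero elements -/
def nz (α : Multiset ℕ) : ℕ := Multiset.card (α.filter fun x => x ≠ 0)

/-- `P` and `Q` are the polynomials of two families such that all the monotone functionals are larger on the second one, and the
numbers of nonzero elements agree -/
def Cmp (A B : ℕ) (P Q : Polynomial (MvPolynomial ℕ ℚ)) : Prop :=
  ∃ L M : Multiset (ℕ × Multiset ℕ), P = pol L ∧ Q = pol M ∧ (∀ x ∈ L, x.2.sum = A) ∧ (∀ x ∈ M, x.2.sum = B) ∧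
    (∀ f : ℕ → Multiset ℕ → ℕ, (∀ n, Mon (f n)) → (L.map fun x => f x.1 x.2).sum ≤ (M.map fun x => f x.1 x.2).sum) ∧
    ∀ g : ℕ → ℕ → ℕ, (L.map fun x => g x.1 (nz x.2)).sum = (M.map fun x => g x.1 (nz x.2)).sum

end symm

end TPath
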