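import Pool.Agent.Lib.MP_630b78_co.TP.Defs
import Pool.Agent.Lib.MP_630b78_co.QO.Bar

/-!
# The coefficient as a pairing with a determinant
-/

namespace TPath

open MvPolynomial EllHall

private theorem sort_addCol (ρ : Multiset ℕ) (n : ℕ) :
    (addCol ρ n).sort (· ≥ ·) =
      (ρ.sort (· ≥ ·)).map (fun x => x + 1) ++ List.replicate (n - (ρ.sum + Multiset.card ρ)) 1 := by
  have h1 : (addCol ρ n) = (((ρ.sort (· ≥ ·)).map (fun x => x + 1) ++
      List.replicate (n - (ρ.sum + Multiset.card ρ)) 1 : List ℕ) : Multiset ℕ) := by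
    rw [← Multiset.coe_add, ← Multiset.map_coe, Multiset.sort_eq, Multiset.coe_replicate]
    rfl
  rw [h1]
  refine List.Perm.eq_of_pairwise' ?_ ?_ ?_ (r := (· ≥ ·))
  · exact Multiset.pairwise_sort _ _
  · rw [List.pairwise_append]
    refine ⟨?_, List.pairwise_replicate.2 (Or.inr le_rfl), ?_⟩
    · rw [List.pairwise_map]
      exact (Multiset.pairwise_sort ρ (· ≥ ·)).imp fun h => Nat.succ_le_succ h
    · intro x hx y hy
      rw [List.mem_map] at hx
      obtain ⟨z, _, rfl⟩ := hx
      rw [List.eq_of_mem_replicate hy]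
      omega
  · rw [← Multiset.coe_eq_coe, Multiset.sort_eq]

theorem barCoeff_SX {ρ : Multiset ℕ} (hρ : ∀ x ∈ ρ, 1 ≤ x) (g : MvPolynomial ℕ ℚ) (N : ℕ) :
    barCoeff g N ρ = if ρ.sum + Multiset.card ρ ≤ N then hall g (SX (N - ρ.sum) (rowOf ρ)) else 0 := by
  obtain ⟨μ, hμ, h⟩ := barCoeff_eq hρ g N
  rw [h]
  split_ifs with h1
  · have h2 := hμ h1
    have h3 := sort_addCol ρ N
    rw [← h2] at h3
    have hl0 : (ρ.sort (· ≥ ·)).length = Multiset.card ρ := Multiset.length_sort _
    have hlen : (μ.parts.sort (· ≥ ·)).length = N - ρ.sum := by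
      rw [h3, List.length_append, List.length_map, List.length_replicate, hl0]
      omega
    unfold sc
    congr 1
    unfold SX DT schur
    rw [← Matrix.det_submatrix_equiv_self (finCongr hlen.symm)]
    congr 1
    refine Matrix.ext fun i j => ?_
    simp only [Matrix.submatrix_apply, Matrix.of_apply, finCongr_apply, Fin.val_cast]
    have hi : (i : ℕ) < (μ.parts.sort (· ≥ ·)).length := by rw [hlen]; exact i.2
    have h4 : ((μ.parts.sort (· ≥ ·)).get (Fin.cast hlen.symm i)) = rowOf ρ i + 1 := by
      rw [List.get_eq_getElem]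
      simp only [Fin.val_cast]
      have h5 : (μ.parts.sort (· ≥ ·))[(i : ℕ)] = (μ.parts.sort (· ≥ ·)).getD i 0 := (List.getD_eq_getElem _ _ hi).symm
      rw [h5, h3]
      unfold rowOf
      rcases Nat.lt_or_ge (i : ℕ) (Multiset.card ρ) with hc | hc
      · rw [List.getD_append _ _ _ _ (by rw [List.length_map, hl0]; exact hc),
          List.getD_eq_getElem _ _ (by rw [List.length_map, hl0]; exact hc), List.getElem_map,
          List.getD_eq_getElem _ _ (by rw [hl0]; exact hc)]
      · rw [List.getD_append_right _ _ _ _ (by rw [List.length_map, hl0]; exact hc),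
          List.getD_eq_default _ _ (show (ρ.sort (· ≥ ·)).length ≤ (i : ℕ) by rw [hl0]; exact hc)]
        have h6 : (i : ℕ) - ((ρ.sort (· ≥ ·)).map (fun x => x + 1)).length <
            (List.replicate (N - (ρ.sum + Multiset.card ρ)) 1).length := by
          rw [List.length_map, hl0, List.length_replicate]
          have := i.2
          omega
        rw [List.getD_eq_getElem _ _ h6, List.getElem_replicate]
    rw [h4]
    congr 1
  · rfl

end TPath
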