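import Pool.Agent.Lib.MP_630b78_co.TP.Pieri
import Pool.Agent.Lib.MP_630b78_co.TP.BarC

/-!
# The hook coefficients of the products of elementary functions
-/

namespace TPath

open MvPolynomial EllHall

/-- the coefficient of the hook with first row `j + 1` in a product of `l` elementary functions of positive degrees -/
def hkv (j l : ℕ) : ℕ := if l = 0 then (if j = 0 then 1 else 0) else (l - 1).choose j

/-- the rows of the hook -/
private def hr (j i : ℕ) : ℕ := if i = 0 then j else 0

private theorem rowOf_hr (j : ℕ) : rowOf (if j = 0 then 0 else {j}) = hr j := by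
  funext i
  unfold rowOf hr
  by_cases h : j = 0
  · simp [h]
  · rw [if_neg h, Multiset.sort_singleton]
    cases i with
    | zero => simp
    | succ i => simp

private theorem bar_hr (j : ℕ) (g : MvPolynomial ℕ ℚ) (N : ℕ) : barCoeff g N (if j = 0 then 0 else {j}) =
    if j + (if j = 0 then 0 else 1) ≤ N then hall g (SX (N - j) (hr j)) else 0 := by
  have hρ : ∀ x ∈ (if j = 0 then 0 else {j} : Multiset ℕ), 1 ≤ x := by
    intro x hx
    split_ifs at hx with h
    · simp at hx
    · rw [Multiset.mem_singleton] at hx; omega
  rw [barCoeff_SX hρ, rowOf_hr]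
  by_cases h : j = 0
  · simp [h]
  · simp [h]

private theorem nz_zero (α : Multiset ℕ) : nz (0 ::ₘ α) = nz α := by
  unfold nz
  rw [Multiset.filter_cons_of_neg _ (by simp)]

private theorem nz_pos {x : ℕ} (hx : 1 ≤ x) (α : Multiset ℕ) : nz (x ::ₘ α) = nz α + 1 := by
  unfold nz
  rw [Multiset.filter_cons_of_pos _ (by omega), Multiset.card_cons]

private theorem nz_le (α : Multiset ℕ) : nz α ≤ α.sum := by
  induction α using Multiset.induction_on with
  | empty => simp [nz]
  | cons x α ih =>
    rw [Multiset.sum_cons]
    rcases Nat.eq_zero_or_pos x with h | h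
    · rw [h, nz_zero, zero_add]; exact ih
    · rw [nz_pos h]; omega

private theorem nz_eq_zero {α : Multiset ℕ} (h : nz α = 0) : α.sum = 0 := by
  induction α using Multiset.induction_on with
  | empty => simp
  | cons x α ih =>
    rw [Multiset.sum_cons]
    rcases Nat.eq_zero_or_pos x with h1 | h1
    · rw [h1, nz_zero] at h
      rw [h1, ih h]
    · rw [nz_pos h1] at h
      omega

private theorem mi_empty (ν : ℕ → ℕ) : mi ν ∅ = ν := by
  funext i
  simp [mi]

private theorem mi_hr (j : ℕ) : mi (hr j) {0} = hr (j - 1) := by
  funext i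
  unfold mi hr
  by_cases h : i = 0
  · simp [h]
  · simp [h]

private theorem row_zero (x : ℕ) (g : MvPolynomial ℕ ℚ) (N : ℕ) :
    hall (ee ℚ x * g) (SX (N + x - 0) (hr 0)) = hall g (SX (N - 0) (hr 0)) := by
  have h := pieri x N 0 0 (hr 0) (fun i => by unfold hr; simp) (by omega) g
  rw [h, Finset.range_zero, Finset.powerset_empty, Finset.sum_singleton, Finset.card_empty, mi_empty, if_pos (by omega)]
  rfl

private theorem row_succ (x : ℕ) (hx : 1 ≤ x) (g : MvPolynomial ℕ ℚ) (N j : ℕ) (hj : 1 ≤ j) (h1 : j + 1 ≤ N + x) :
    hall (ee ℚ x * g) (SX (N + x - j) (hr j)) =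
      (if j + 1 ≤ N then hall g (SX (N - j) (hr j)) else 0) +
        (if j ≤ N then hall g (SX (N - (j - 1)) (hr (j - 1))) else 0) := by
  have h := pieri x N j 1 (hr j) (fun i => by unfold hr; split_ifs with h <;> omega) h1 g
  have hp : (Finset.range 1).powerset = {∅, {0}} := by decide
  rw [h, hp, Finset.sum_pair (by decide), Finset.card_empty, Finset.card_singleton, mi_empty, mi_hr]
  congr 1
  · by_cases h2 : j + 1 ≤ N
    · rw [if_pos ⟨by omega, by omega⟩, if_pos h2, add_zero]
    · rw [if_neg (by omega), if_neg h2]
  · by_cases h2 : j ≤ N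
    · rw [if_pos ⟨hx, by omega⟩, if_pos h2]
      congr 2
      omega
    · rw [if_neg (by omega), if_neg h2]

theorem barCoeff_row (j : ℕ) (α : Multiset ℕ) :
    barCoeff ((α.map (ee ℚ)).prod) α.sum (if j = 0 then 0 else {j}) = (hkv j (nz α) : ℚ) := by
  revert j
  induction α using Multiset.induction_on with
  | empty =>
    intro j
    rw [bar_hr, Multiset.map_zero, Multiset.prod_zero, Multiset.sum_zero]
    by_cases h : j = 0
    · subst h
      rw [if_pos (by simp), hall_one]
      have e : SX 0 (hr 0) = 1 := by
        unfold SX DT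
        exact Matrix.det_isEmpty
      have e0 : (0 : ℕ) - 0 = 0 := rfl
      rw [e0, e]
      simp [hkv, nz]
    · rw [if_neg (by omega)]
      simp [hkv, nz, h]
  | cons x β ih =>
    intro j
    rw [Multiset.map_cons, Multiset.prod_cons, Multiset.sum_cons]
    rcases Nat.eq_zero_or_pos x with hx | hx
    · have e : ee ℚ 0 = 1 := by rw [ee]
      rw [hx, e, one_mul, zero_add, nz_zero]
      exact ih j
    · rw [nz_pos hx, bar_hr, Nat.add_comm x β.sum]
      by_cases hj : j = 0
      · subst hj
        rw [if_pos (by simp), row_zero]
        have h2 := ih 0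
        rw [bar_hr, if_pos (by simp)] at h2
        rw [h2]
        unfold hkv
        by_cases h3 : nz β = 0
        · simp [h3]
        · simp [h3]
      · rw [if_neg hj]
        by_cases h1 : j + 1 ≤ β.sum + x
        · rw [if_pos h1, row_succ x hx _ _ j (by omega) h1]
          have h2 := ih j
          rw [bar_hr, if_neg hj] at h2
          have h3 := ih (j - 1)
          rw [bar_hr] at h3
          rw [h2]
          by_cases h4 : nz β = 0
          · have h5 := nz_eq_zero h4
            rw [if_neg (by omega), add_zero, h4]
            unfold hkv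
            rw [if_pos rfl, if_neg hj, if_neg (by omega), Nat.choose_eq_zero_of_lt (by omega)]
          · have h5 : 1 ≤ β.sum := le_trans (by omega) (nz_le β)
            have h6 : (if j ≤ β.sum then hall ((β.map (ee ℚ)).prod) (SX (β.sum - (j - 1)) (hr (j - 1))) else 0) =
                (hkv (j - 1) (nz β) : ℚ) := by
              rw [← h3]
              by_cases h7 : j ≤ β.sum
              · rw [if_pos h7, if_pos]
                split_ifs <;> omega
              · rw [if_neg h7, if_neg]
                split_ifs <;> omega
            rw [h6]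
            obtain ⟨i, rfl⟩ : ∃ i, j = i + 1 := ⟨j - 1, by omega⟩
            obtain ⟨l, hl⟩ : ∃ l, nz β = l + 1 := ⟨nz β - 1, by omega⟩
            rw [hl]
            unfold hkv
            rw [if_neg (by omega), if_neg (by omega), if_neg (by omega)]
            have e1 : l + 1 - 1 = l := by omega
            have e2 : l + 1 + 1 - 1 = l + 1 := by omega
            have e3 : i + 1 - 1 = i := by omega
            rw [e1, e2, e3, Nat.choose_succ_succ]
            push_cast
            ring
        · rw [if_neg h1]
          unfold hkv
          have h2 := nz_le β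
          rw [if_neg (by omega), Nat.choose_eq_zero_of_lt (by omega), Nat.cast_zero]

end TPath
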