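import Pool.Agent.Lib.MP_630b78_co.TP.Fun
import Pool.Agent.Lib.MP_630b78_co.TP.Hk
import Pool.Agent.Lib.MP_630b78_co.EH.Pair

/-!
# The conclusion from a comparison
-/

namespace TPath

open MvPolynomial EllHall

private theorem Conc_add (g g' : MvPolynomial ℕ ℚ) (n : ℕ) (ρ : Multiset ℕ) :
    barCoeff (g + g') n ρ = barCoeff g n ρ + barCoeff g' n ρ := by
  unfold barCoeff
  rw [← Finset.sum_add_distrib]
  refine Finset.sum_congr rfl fun μ _ => ?_
  split_ifs
  · exact hall_add_left _ _ _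
  · rw [add_zero]

private theorem Conc_zero (n : ℕ) (ρ : Multiset ℕ) : barCoeff (0 : MvPolynomial ℕ ℚ) n ρ = 0 := by
  have h := Conc_add 0 0 n ρ
  rw [add_zero] at h
  linarith

private theorem Conc_coeff (k : ℕ) (p : MvPolynomial ℕ ℚ) (m : ℕ) :
    (Polynomial.X ^ k * Polynomial.C p).coeff m = if k = m then p else 0 := by
  rw [Polynomial.coeff_X_pow_mul']
  by_cases h : k = m
  · rw [if_pos h, if_pos h.le, h, Nat.sub_self, Polynomial.coeff_C_zero]
  · rw [if_neg h]
    split_ifs with h1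
    · exact Polynomial.coeff_C_ne_zero (by omega)
    · rfl

private theorem Conc_sum (f : Multiset ℕ → ℕ) (ρ : Multiset ℕ)
    (hf : ∀ α, barCoeff ((α.map (ee ℚ)).prod) α.sum ρ = (f α : ℚ)) (m A : ℕ) (L : Multiset (ℕ × Multiset ℕ)) :
    (∀ x ∈ L, x.2.sum = A) → barCoeff ((pol L).coeff m) A ρ =
      ((L.map fun x => if x.1 = m then f x.2 else 0).sum : ℕ) := by
  induction L using Multiset.induction_on with
  | empty =>
    intro _
    rw [Multiset.map_zero, Multiset.sum_zero, Nat.cast_zero]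
    unfold pol
    rw [Multiset.map_zero, Multiset.sum_zero, Polynomial.coeff_zero]
    exact Conc_zero _ _
  | cons a L ih =>
    intro h
    have h1 : pol (a ::ₘ L) = Polynomial.X ^ a.1 * Polynomial.C ((a.2.map (ee ℚ)).prod) + pol L := by
      unfold pol
      rw [Multiset.map_cons, Multiset.sum_cons]
    rw [h1, Polynomial.coeff_add, Conc_add, Conc_coeff, ih fun x hx => h x (Multiset.mem_cons_of_mem hx),
      Multiset.map_cons, Multiset.sum_cons, Nat.cast_add]
    congr 1
    split_ifs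
    · have h2 := hf a.2
      rw [h a (Multiset.mem_cons_self a L)] at h2
      exact h2
    · rw [Conc_zero, Nat.cast_zero]

theorem Cmp.conc {A B : ℕ} {P Q : Polynomial (MvPolynomial ℕ ℚ)} (h : Cmp A B P Q) (m : ℕ) (ρ : Multiset ℕ) :
    ∃ n : ℕ, barCoeff (Q.coeff m) B ρ - barCoeff (P.coeff m) A ρ = (n : ℚ) := by
  obtain ⟨L, M, rfl, rfl, hL, hM, hc, -⟩ := h
  obtain ⟨f, hf, hfb⟩ := exists_fun
  have hmon : ∀ n, Mon (fun α => if n = m then f ρ α else 0) := by
    intro n
    by_cases hn : n = m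
    · have h0 : (fun α => if n = m then f ρ α else 0) = f ρ := by
        funext α
        rw [if_pos hn]
      rw [h0]
      exact hf ρ
    · have h0 : (fun α => if n = m then f ρ α else 0) = fun _ => 0 := by
        funext α
        rw [if_neg hn]
      rw [h0]
      exact ⟨fun _ => rfl, fun _ _ => le_rfl⟩
  have h1 := hc (fun n α => if n = m then f ρ α else 0) hmon
  rw [Conc_sum (f ρ) ρ (hfb ρ) m A L hL, Conc_sum (f ρ) ρ (hfb ρ) m B M hM]
  refine ⟨(M.map fun x => if x.1 = m then f ρ x.2 else 0).sum -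
    (L.map fun x => if x.1 = m then f ρ x.2 else 0).sum, ?_⟩
  rw [Nat.cast_sub h1]

theorem Cmp.conc_row {A B : ℕ} {P Q : Polynomial (MvPolynomial ℕ ℚ)} (h : Cmp A B P Q) (m j : ℕ) :
    barCoeff (Q.coeff m) B (if j = 0 then 0 else {j}) = barCoeff (P.coeff m) A (if j = 0 then 0 else {j}) := by
  obtain ⟨L, M, rfl, rfl, hL, hM, -, hc⟩ := h
  rw [Conc_sum (fun α => hkv j (nz α)) _ (fun α => barCoeff_row j α) m A L hL,
    Conc_sum (fun α => hkv j (nz α)) _ (fun α => barCoeff_row j α) m B M hM]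
  have h1 := hc fun n l => if n = m then hkv j l else 0
  rw [h1]

end TPath
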