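import Pool.Agent.Lib.MP_630b78_co.TP.Main
import Pool.Agent.Lib.MP_630b78_co.TP.Conc

/-!
# The theorem
-/

namespace TPath

open MvPolynomial EllHall

theorem main (a b d : ℕ) (ha : 1 ≤ a) (hab : a ≤ b) (c : Nat.Partition d → Polynomial ℕ) (m : ℕ) (ρ : Multiset ℕ) :
    ∃ n : ℕ, barCoeff ((F a b c).coeff m) (b * d) ρ - barCoeff ((F b a c).coeff m) (a * d) ρ = (n : ℚ) := by
  rcases Nat.eq_or_lt_of_le hab with h | h
  · subst h
    exact ⟨0, by simp⟩
  · exact (Cmp_F a b d ha h c).conc m ρ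

theorem main_row (a b d : ℕ) (ha : 1 ≤ a) (hab : a ≤ b) (c : Nat.Partition d → Polynomial ℕ) (m j : ℕ) :
    barCoeff ((F a b c).coeff m) (b * d) (if j = 0 then 0 else {j}) =
      barCoeff ((F b a c).coeff m) (a * d) (if j = 0 then 0 else {j}) := by
  rcases Nat.eq_or_lt_of_le hab with h | h
  · subst h
    rfl
  · exact (Cmp_F a b d ha h c).conc_row m j

end TPath
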