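import Pool.Agent.Lib.MP_630b78_co.TP.Defs

/-!
# The area above the diagonal
-/

namespace TPath

open MvPolynomial EllHall

private theorem split_card (n B c : ℕ) (a : ℕ) (h1 : c ≤ a * n) (h2 : n ≤ B) :
    n = ((Finset.range n).filter fun y => c ≤ a * y).card + ((Finset.range B).filter fun y => a * y < c).card := by
  have h3 : ((Finset.range B).filter fun y => a * y < c) = ((Finset.range n).filter fun y => ¬ c ≤ a * y) := by
    ext y
    simp only [Finset.mem_filter, Finset.mem_range, not_le]
    constructor
    · rintro ⟨_, h⟩
      refine ⟨?_, h⟩
      by_contra hy
      have h4 : a * n ≤ a * y := Nat.mul_le_mul_left a (not_lt.1 hy)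
      omega
    · rintro ⟨h, h'⟩
      exact ⟨by omega, h'⟩
  rw [h3, Finset.card_filter_add_card_filter_not, Finset.card_range]

private theorem gen (a b B : ℕ) : ∀ (w : List Bool) (n e : ℕ),
    (∀ p, (p ++ [false]) <+: w → b * (e + p.count false + 1) ≤ a * (n + p.count true) ∧ n + p.count true ≤ B) →
    ar n w = area a b n e w + ∑ i ∈ Finset.range (w.count false), ((Finset.range B).filter fun y => a * y < b * (e + i + 1)).card := by
  intro w
  induction w with
  | nil => intro n e _; simp [ar, area]
  | cons c w ih =>
    intro n e h
    cases c with
    | true =>
      have h1 := ih (n + 1) e fun p hp => by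
        have h2 := h (true :: p) (by
          rw [List.cons_append]
          exact List.prefix_cons_inj _ |>.2 hp)
        simp only [List.count_cons, beq_iff_eq, Bool.true_eq_false, if_false, if_true, add_zero] at h2
        rw [show n + 1 + p.count true = n + (p.count true + 1) by ring]
        exact h2
      have h3 : (true :: w).count false = w.count false := by simp
      rw [h3]
      exact h1
    | false =>
      have h0 := h [] (by simp)
      simp only [List.count_nil, add_zero] at h0
      have h1 := ih n (e + 1) fun p hp => by
        have h2 := h (false :: p) (by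
          rw [List.cons_append]
          exact List.prefix_cons_inj _ |>.2 hp)
        simp only [List.count_cons, beq_iff_eq, Bool.false_eq_true, if_false, if_true, add_zero] at h2
        rw [show e + 1 + p.count false + 1 = e + (p.count false + 1) + 1 by ring]
        exact h2
      have h3 : (false :: w).count false = w.count false + 1 := by simp
      have h4 := split_card n B (b * (e + 1)) a h0.1 h0.2
      have h5 : ∑ i ∈ Finset.range (w.count false), ((Finset.range B).filter fun y => a * y < b * (e + (i + 1) + 1)).card =
          ∑ i ∈ Finset.range (w.count false), ((Finset.range B).filter fun y => a * y < b * (e + 1 + i + 1)).card := by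
        refine Finset.sum_congr rfl fun i _ => ?_
        rw [show e + (i + 1) + 1 = e + 1 + i + 1 by ring]
      rw [h3, Finset.sum_range_succ', h5, add_zero]
      change n + ar n w = ((Finset.range n).filter fun y => b * (e + 1) ≤ a * y).card + area a b n (e + 1) w + _
      rw [h1]
      omega

theorem ar_area {a b k : ℕ} {w : List Bool} (hw : w ∈ prim a b k) : ar 0 w = area a b 0 0 w + low a b k := by
  unfold prim at hw
  rw [Finset.mem_filter] at hw
  obtain ⟨-, h1, h2, h3⟩ := hw
  have h4 := gen a b (b * k) w 0 0 (by
    intro p hp
    obtain ⟨t, ht⟩ := hp
    have h5 : p.count true ≤ w.count true := by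
      rw [← ht, List.count_append, List.count_append]
      omega
    refine ⟨?_, by rw [zero_add, ← h1]; exact h5⟩
    rw [zero_add, zero_add]
    have h6 : (p ++ [false]).count false = p.count false + 1 := by simp
    have h7 : (p ++ [false]).count true = p.count true := by simp
    by_cases hpw : p ++ [false] = w
    · rw [← h6, ← h7, hpw, h1, h2]
      apply le_of_eq
      ring
    · have h8 := h3 (p ++ [false]) ((List.mem_inits _ _).2 ⟨t, ht⟩) (by simp) hpw
      rw [h6, h7] at h8
      exact h8.le)
  rw [h4, h2]
  simp only [zero_add]
  rfl

end TPath
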