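import Pool.Agent.Lib.MP_630b78_co.TP.Defs

/-!
# Primitive paths and their boundary
-/

namespace TPath

open MvPolynomial EllHall

private theorem len_eq (w : List Bool) : w.length = w.count true + w.count false := by
  induction w with
  | nil => rfl
  | cons a w ih =>
    rw [List.length_cons, ih]
    cases a
    · rw [List.count_cons_of_ne (by decide), List.count_cons_self]
      omega
    · rw [List.count_cons_self, List.count_cons_of_ne (by decide)]
      omega

private theorem count_le {p w : List Bool} (h : p <+: w) (x : Bool) : p.count x ≤ w.count x :=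
  List.Sublist.count_le x h.sublist

private theorem div_iff {a x y : ℕ} (ha : 1 ≤ a) : x / a + 1 ≤ y ↔ x < a * y := by
  rw [Nat.succ_le_iff, Nat.div_lt_iff_lt_mul ha, mul_comm]

private theorem pref_eq {p w : List Bool} (h : p <+: w) (ht : w.count true ≤ p.count true) (hf : w.count false ≤ p.count false) :
    p = w := by
  apply h.eq_of_length_le
  rw [len_eq p, len_eq w]
  omega

private theorem prim_iff {a b k : ℕ} (w : List Bool) :
    w ∈ prim a b k ↔ w.count true = b * k ∧ w.count false = a * k ∧
      ∀ p, p <+: w → p ≠ [] → p ≠ w → b * p.count false < a * p.count true := by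
  unfold prim
  rw [Finset.mem_filter, mem_words]
  constructor
  · rintro ⟨-, h1, h2, h3⟩
    exact ⟨h1, h2, fun p hp => h3 p (List.mem_inits p w |>.2 hp)⟩
  · rintro ⟨h1, h2, h3⟩
    refine ⟨?_, h1, h2, fun p hp => h3 p (List.mem_inits p w |>.1 hp)⟩
    rw [len_eq, h1, h2, add_comm]

theorem mem_prim {a b k : ℕ} (ha : 1 ≤ a) (hb : 1 ≤ b) (hk : 1 ≤ k) (w : List Bool) :
    w ∈ prim a b k ↔ w.count true = b * k ∧ w.count false = a * k ∧ Above (bdry a b k) 0 0 w := by
  rw [prim_iff]
  have hak : 0 < a * k := Nat.mul_pos ha hk
  constructor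
  · rintro ⟨h1, h2, h3⟩
    refine ⟨h1, h2, fun p hp => ?_⟩
    rw [zero_add, zero_add]
    unfold bdry
    split_ifs with h4 h5
    · exact Nat.zero_le _
    · by_cases hpw : p = w
      · rw [hpw, h1]
      · exfalso
        have hne : p ≠ [] := by
          rintro rfl
          exact h4 rfl
        have h6 := h3 p hp hne hpw
        have h7 : p.count true ≤ b * k := h1 ▸ count_le hp true
        rw [h5] at h6
        have h8 : a * p.count true ≤ a * (b * k) := Nat.mul_le_mul_left a h7
        have h9 : b * (a * k) = a * (b * k) := by ring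
        omega
    · have hne : p ≠ [] := by
        rintro rfl
        exact h4 rfl
      have hpw : p ≠ w := by
        rintro rfl
        exact h5 h2
      exact (div_iff ha).2 (h3 p hp hne hpw)
  · rintro ⟨h1, h2, h3⟩
    refine ⟨h1, h2, fun p hp hne hpw => ?_⟩
    have h4 := h3 p hp
    rw [zero_add, zero_add] at h4
    unfold bdry at h4
    split_ifs at h4 with h5 h6
    · rw [h5, mul_zero]
      apply Nat.mul_pos ha
      have h7 : 0 < p.length := List.length_pos_iff.2 hne
      rw [len_eq p] at h7
      omega
    · exact absurd (pref_eq hp (by omega) (by omega)) hpw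
    · exact (div_iff ha).1 h4

theorem bdry_lt {a b k : ℕ} (ha : 1 ≤ a) (hab : a < b) (hk : 1 ≤ k) (i : ℕ) (hi : i < a * k) :
    bdry a b k i < bdry a b k (i + 1) := by
  have hbk : 1 ≤ b * k := Nat.mul_pos (by omega) hk
  unfold bdry
  rw [if_neg (Nat.succ_ne_zero i)]
  by_cases h0 : i = 0
  · rw [if_pos h0]
    split_ifs
    · exact hbk
    · exact Nat.succ_pos _
  · rw [if_neg h0, if_neg hi.ne]
    split_ifs with h1
    · have h2 : b * i < a * (b * k - 1) := by
        have h3 : b * (i + 1) = a * (b * k) := by rw [h1]; ring
        have h4 : a * (b * k - 1) + a = a * (b * k) := by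
          rw [← Nat.mul_succ, Nat.succ_eq_add_one, Nat.sub_add_cancel hbk]
        rw [Nat.mul_succ] at h3
        omega
      have h5 := (div_iff ha).2 h2
      omega
    · have h2 : b * i / a + 1 = (b * i + a) / a := by
        rw [Nat.add_div_right _ ha]
      have h3 : (b * i + a) / a ≤ b * (i + 1) / a := by
        apply Nat.div_le_div_right
        rw [Nat.mul_succ]
        omega
      omega

theorem prim_nonneg {a b k : ℕ} (ha : 1 ≤ a) (hab : a < b) (w : List Bool) (hw : w ∈ prim a b k) : Nonneg w := by
  rw [prim_iff] at hw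
  obtain ⟨h1, h2, h3⟩ := hw
  intro p hp
  by_cases hne : p = []
  · subst hne
    exact le_rfl
  by_cases hpw : p = w
  · rw [hpw, h1, h2]
    exact Nat.mul_le_mul_right k hab.le
  have h4 := h3 p hp hne hpw
  by_contra h5
  push Not at h5
  have h6 : a * p.count true ≤ b * p.count false := Nat.mul_le_mul hab.le h5.le
  omega

end TPath
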