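import Pool.Agent.Lib.MP_630b78_co.TP.Defs
import Pool.Agent.Lib.MP_630b78_co.EH.Pair
import Pool.Agent.Lib.MP_630b78_co.EH.Newton

/-!
# The adjoint of the multiplication by an elementary function
-/

namespace TPath

open MvPolynomial EllHall

private theorem Adj_psi_X (k : ℕ) : psi (X k) = Polynomial.C (X k) + (-1) ^ k * Polynomial.X ^ (k + 1) := by
  simp [psi]

private theorem Adj_psi_C (a : ℚ) : psi (C a) = Polynomial.C (C a) := by
  have h : psi (C a) = algebraMap ℚ (Polynomial (MvPolynomial ℕ ℚ)) a := psi.commutes a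
  rw [h]
  rfl

/-- the coefficients of the chain rule -/
private noncomputable def Adj_s (i : ℕ) : Polynomial (MvPolynomial ℕ ℚ) :=
  Polynomial.C ((((-1) ^ i * (i + 1 : ℚ) : ℚ)) • (1 : MvPolynomial ℕ ℚ)) * Polynomial.X ^ i

private theorem Adj_der_X (k : ℕ) : Polynomial.derivative (psi (X k)) = Adj_s k := by
  rw [Adj_psi_X, Polynomial.derivative_add, Polynomial.derivative_C, zero_add]
  have e : ((-1 : Polynomial (MvPolynomial ℕ ℚ)) ^ k * Polynomial.X ^ (k + 1)) =
      Polynomial.C ((-1) ^ k) * Polynomial.X ^ (k + 1) := by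
    rw [map_pow, map_neg, map_one]
  rw [e, Polynomial.derivative_C_mul_X_pow]
  unfold Adj_s
  rw [Nat.add_sub_cancel]
  congr 2
  rw [MvPolynomial.smul_eq_C_mul, mul_one, map_mul, map_pow, map_neg, map_one, map_add, map_one, map_natCast]
  push_cast
  ring

private theorem Adj_chain (N : ℕ) (f : MvPolynomial ℕ ℚ) :
    Polynomial.X ^ N ∣ Polynomial.derivative (psi f) - ∑ i ∈ Finset.range N, Adj_s i * psi (pderiv i f) := by
  induction f using MvPolynomial.induction_on with
  | C a =>
    have : ∑ i ∈ Finset.range N, Adj_s i * psi (pderiv i (C a)) = 0 :=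
      Finset.sum_eq_zero fun i _ => by rw [pderiv_C, map_zero, mul_zero]
    rw [Adj_psi_C, Polynomial.derivative_C, this, sub_self]
    exact dvd_zero _
  | add p r hp hr =>
    have e : Polynomial.derivative (psi (p + r)) - ∑ i ∈ Finset.range N, Adj_s i * psi (pderiv i (p + r)) =
        (Polynomial.derivative (psi p) - ∑ i ∈ Finset.range N, Adj_s i * psi (pderiv i p)) +
        (Polynomial.derivative (psi r) - ∑ i ∈ Finset.range N, Adj_s i * psi (pderiv i r)) := by
      simp only [map_add, mul_add, Finset.sum_add_distrib]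
      ring
    rw [e]
    exact dvd_add hp hr
  | mul_X p k hp =>
    have hX : Polynomial.X ^ N ∣ Polynomial.derivative (psi (X k)) - ∑ i ∈ Finset.range N, Adj_s i * psi (pderiv i (X k)) := by
      rw [Adj_der_X]
      have e1 : ∀ i ∈ Finset.range N, Adj_s i * psi (pderiv i (X k)) = if i = k then Adj_s k else 0 := by
        intro i _
        rw [pderiv_X, Pi.single_apply]
        by_cases hik : i = k
        · subst hik
          rw [if_pos rfl, if_pos rfl, map_one, mul_one]
        · rw [if_neg (fun h => hik h.symm), if_neg hik, map_zero, mul_zero]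
      rw [Finset.sum_congr rfl e1, Finset.sum_ite_eq' (Finset.range N) k]
      split_ifs with hk
      · rw [sub_self]
        exact dvd_zero _
      · rw [sub_zero]
        have hk' : N ≤ k := by
          rw [Finset.mem_range] at hk
          omega
        unfold Adj_s
        exact dvd_mul_of_dvd_right (pow_dvd_pow _ hk') _
    have e : Polynomial.derivative (psi (p * X k)) - ∑ i ∈ Finset.range N, Adj_s i * psi (pderiv i (p * X k)) =
        (Polynomial.derivative (psi p) - ∑ i ∈ Finset.range N, Adj_s i * psi (pderiv i p)) * psi (X k) +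
        psi p * (Polynomial.derivative (psi (X k)) - ∑ i ∈ Finset.range N, Adj_s i * psi (pderiv i (X k))) := by
      have e2 : ∑ i ∈ Finset.range N, Adj_s i * psi (pderiv i (p * X k)) =
          (∑ i ∈ Finset.range N, Adj_s i * psi (pderiv i p)) * psi (X k) +
          psi p * ∑ i ∈ Finset.range N, Adj_s i * psi (pderiv i (X k)) := by
        rw [Finset.sum_mul, Finset.mul_sum, ← Finset.sum_add_distrib]
        refine Finset.sum_congr rfl fun i _ => ?_
        rw [Derivation.leibniz, map_add, smul_eq_mul, smul_eq_mul, map_mul, map_mul]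
        ring
      rw [e2, map_mul, Polynomial.derivative_mul]
      ring
    rw [e]
    exact dvd_add (dvd_mul_of_dvd_left hp _) (dvd_mul_of_dvd_right hX _)

private theorem Adj_coeff (m : ℕ) (f : MvPolynomial ℕ ℚ) :
    ((m + 1 : ℕ) : ℚ) • (psi f).coeff (m + 1) =
      ∑ i ∈ Finset.range (m + 1), ((-1) ^ i * (i + 1 : ℚ) : ℚ) • (psi (pderiv i f)).coeff (m - i) := by
  have h := Polynomial.X_pow_dvd_iff.1 (Adj_chain (m + 1) f) m (Nat.lt_succ_self m)
  rw [Polynomial.coeff_sub, sub_eq_zero, Polynomial.coeff_derivative, Polynomial.finsetSum_coeff] at h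
  have e1 : ((m + 1 : ℕ) : ℚ) • (psi f).coeff (m + 1) = (psi f).coeff (m + 1) * ((m : MvPolynomial ℕ ℚ) + 1) := by
    rw [MvPolynomial.smul_eq_C_mul, map_natCast]
    push_cast
    ring
  rw [e1, h]
  refine Finset.sum_congr rfl fun i hi => ?_
  have hi' : i ≤ m := by
    have := Finset.mem_range.1 hi
    omega
  unfold Adj_s
  rw [mul_assoc, Polynomial.coeff_C_mul, Polynomial.coeff_X_pow_mul', if_pos hi', smul_mul_assoc, one_mul]

private theorem Adj_zero (f : MvPolynomial ℕ ℚ) : (psi f).coeff 0 = f := by
  induction f using MvPolynomial.induction_on with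
  | C a => rw [Adj_psi_C, Polynomial.coeff_C_zero]
  | add p r hp hr => rw [map_add, Polynomial.coeff_add, hp, hr]
  | mul_X p k hp =>
    rw [map_mul, Polynomial.mul_coeff_zero, hp, Adj_psi_X, Polynomial.coeff_add, Polynomial.coeff_C_zero,
      Polynomial.mul_coeff_zero, Polynomial.coeff_X_pow, if_neg (by omega), mul_zero, add_zero]

theorem hall_ee_mul (m : ℕ) (g f : MvPolynomial ℕ ℚ) : hall (ee ℚ m * g) f = hall g ((psi f).coeff m) := by
  induction m using Nat.strong_induction_on generalizing f with
  | _ m ih =>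
    rcases m with _ | m
    · rw [Adj_zero, ee, one_mul]
    · have hc : ((m + 1 : ℕ) : ℚ) ≠ 0 := Nat.cast_ne_zero.mpr (Nat.succ_ne_zero m)
      apply mul_left_cancel₀ hc
      rw [← hall_smul_left, ← hall_smul_right, ← smul_mul_assoc, ee_succ, Finset.sum_mul, hall_sum_left, Adj_coeff, hall_sum_right]
      refine Finset.sum_congr rfl fun i hi => ?_
      have hi' := Finset.mem_range.1 hi
      have e : ((-1) ^ i * X i * ee ℚ (m - i) * g : MvPolynomial ℕ ℚ) = ((-1) ^ i : ℚ) • (X i * (ee ℚ (m - i) * g)) := by
        rw [MvPolynomial.smul_eq_C_mul, map_pow, map_neg, map_one]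
        ring
      rw [e, hall_smul_left, hall_X_mul, hall_smul_right, hall_smul_right, ih (m - i) (by omega)]
      push_cast
      ring

end TPath
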