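import Pool.Agent.Lib.MP_630b78_co.TP.Defs

/-!
# The area below a path
-/

namespace TPath

open MvPolynomial EllHall

theorem ar_append (n : ℕ) (x y : List Bool) : ar n (x ++ y) = ar n x + ar (n + x.count true) y := by
  induction x generalizing n with
  | nil => simp [ar]
  | cons a x ih =>
    cases a with
    | true =>
      rw [List.cons_append, ar, ar, ih, List.count_cons_self]
      congr 2
      omega
    | false =>
      rw [List.cons_append, ar, ar, ih, List.count_cons_of_ne (by simp)]
      omega

theorem ar_shift (n : ℕ) (x : List Bool) : ar n x = n * x.count false + ar 0 x := by
  induction x generalizing n with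
  | nil => simp [ar]
  | cons a x ih =>
    cases a with
    | true =>
      rw [ar, ar, ih (n + 1), ih (0 + 1), List.count_cons_of_ne (by simp)]
      ring
    | false =>
      rw [ar, ar, ih n, List.count_cons_self]
      ring

theorem ar_rs (x : List Bool) : ar 0 (rs x) = ar 0 x := by
  induction x with
  | nil => rfl
  | cons a x ih =>
    rw [rs_cons, ar_append, ih, rs_count_true]
    cases a with
    | true =>
      rw [ar, ar_shift (0 + 1) x]
      simp only [Bool.not_true, ar]
      ring
    | false =>
      rw [ar]
      simp only [Bool.not_false, ar]
      ring

end TPath
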