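import Pool.Agent.Lib.MP_630b78_co.TP.Rel

/-!
# The boundary
-/

namespace TPath

open MvPolynomial EllHall

private theorem above_base {u : List Bool} (hu : Dyck u) (φ : ℕ → ℕ) (n e : ℕ)
    (hφ : ∀ i, i < e + u.count false → φ i < φ (i + 1)) (ha : Above φ n e u) : Above φ n e (rs u) := by
  have hend : φ (e + u.count false) ≤ n + u.count true := ha u (List.prefix_refl u)
  have hs : u.count true = u.count false := hu.2
  have hdown : ∀ j, j ≤ u.count false → φ (e + (u.count false - j)) + j ≤ φ (e + u.count false) := by
    intro j
    induction j with
    | zero => intro _; simp
    | succ j ih =>
      intro hj
      have h1 := ih (by omega)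
      have h2 := hφ (e + (u.count false - (j + 1))) (by omega)
      have h3 : e + (u.count false - (j + 1)) + 1 = e + (u.count false - j) := by omega
      rw [h3] at h2
      omega
  intro p hp
  have hd := (dyck_rs hu).1 p hp
  have hc : p.count false ≤ u.count false := by
    have := hp.sublist.count_le false
    rw [rs_count_false, hs] at this
    exact this
  have h1 := hdown (u.count false - p.count false) (by omega)
  have h2 : u.count false - (u.count false - p.count false) = p.count false := by omega
  rw [h2] at h1
  omega

theorem Rel.above {w w' : List Bool} (h : Rel w w') (φ : ℕ → ℕ) : ∀ n e : ℕ, (∀ i, i < e + w.count false → φ i < φ (i + 1)) →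
    Above φ n e w → Above φ n e w' := by
  induction h with
  | base u hu => intro n e hφ ha; exact above_base hu φ n e hφ ha
  | step u v v' hu hv ih =>
    intro n e hφ ha
    have hs : u.count true = u.count false := hu.2
    have hcf : (u ++ true :: v).count false = u.count false + v.count false := by
      rw [List.count_append]; simp
    rw [hcf] at hφ
    have hau : Above φ n e u := fun p hp => ha p (hp.trans (List.prefix_append _ _))
    have hbase := above_base hu φ n e (fun i hi => hφ i (by omega)) hau
    have hav : Above φ (n + u.count false + 1) (e + u.count false) v := by
      intro p hp
      have h1 : (u ++ true :: p) <+: (u ++ true :: v) := by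
        rw [List.prefix_append_right_inj, List.prefix_cons_inj]
        exact hp
      have h2 := ha _ h1
      have h3 : (u ++ true :: p).count false = u.count false + p.count false := by
        rw [List.count_append]; simp
      have h4 : (u ++ true :: p).count true = u.count true + (p.count true + 1) := by
        rw [List.count_append]; simp
      rw [h3, h4, hs, ← Nat.add_assoc] at h2
      omega
    have hv' := ih (n + u.count false + 1) (e + u.count false) (fun i hi => hφ i (by omega)) hav
    intro p hp
    rcases prefix_app.1 hp with hp | ⟨r, hr, rfl⟩
    · exact hbase p hp
    · rcases List.prefix_cons_iff.1 hr with rfl | ⟨t, rfl, ht⟩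
      · rw [List.append_nil]
        exact hbase _ (List.prefix_refl _)
      · have h2 := hv' t ht
        have h3 : (rs u ++ true :: t).count false = u.count false + t.count false := by
          rw [List.count_append, rs_count_false, hs]; simp
        have h4 : (rs u ++ true :: t).count true = u.count false + (t.count true + 1) := by
          rw [List.count_append, rs_count_true]; simp
        rw [h3, h4, ← Nat.add_assoc]
        omega

end TPath
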