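import Pool.Agent.Lib.MP_630b78_co.TP.Psi

/-!
# The shift of a determinant
-/

namespace TPath

open MvPolynomial EllHall

private theorem Det_piece (n : ℕ) (c : ℕ → ℤ) (s : Finset (Fin n)) :
    (Matrix.detRowAlternating (R := Polynomial (MvPolynomial ℕ ℚ)) (n := Fin n)).toMultilinearMap
      (s.piecewise (fun i : Fin n => (Polynomial.X : Polynomial (MvPolynomial ℕ ℚ)) •
        fun j : Fin n => Polynomial.C (hz ℚ (c i + (j : ℤ) - 1)))
        (fun i : Fin n => fun j : Fin n => Polynomial.C (hz ℚ (c i + (j : ℤ))))) =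
      Polynomial.X ^ s.card * Polynomial.C (DT n (mz c (s.map Fin.valEmbedding))) := by
  classical
  have h1 := MultilinearMap.map_piecewise_smul
    (Matrix.detRowAlternating (R := Polynomial (MvPolynomial ℕ ℚ)) (n := Fin n)).toMultilinearMap
    (fun _ => (Polynomial.X : Polynomial (MvPolynomial ℕ ℚ)))
    (fun i : Fin n => fun j : Fin n => Polynomial.C (hz ℚ (mz c (s.map Fin.valEmbedding) i + (j : ℤ)))) s
  have h2 : s.piecewise (fun i : Fin n => (Polynomial.X : Polynomial (MvPolynomial ℕ ℚ)) •
        fun j : Fin n => Polynomial.C (hz ℚ (c i + (j : ℤ) - 1)))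
        (fun i : Fin n => fun j : Fin n => Polynomial.C (hz ℚ (c i + (j : ℤ)))) =
      s.piecewise (fun i : Fin n => (Polynomial.X : Polynomial (MvPolynomial ℕ ℚ)) •
        fun j : Fin n => Polynomial.C (hz ℚ (mz c (s.map Fin.valEmbedding) i + (j : ℤ))))
        (fun i : Fin n => fun j : Fin n => Polynomial.C (hz ℚ (mz c (s.map Fin.valEmbedding) i + (j : ℤ)))) := by
    funext i
    by_cases hi : i ∈ s
    · rw [Finset.piecewise_eq_of_mem _ _ _ hi, Finset.piecewise_eq_of_mem _ _ _ hi]
      congr 1
      funext j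
      have h3 : mz c (s.map Fin.valEmbedding) i = c i - 1 := by
        unfold mz
        rw [if_pos]
        exact Finset.mem_map.2 ⟨i, hi, rfl⟩
      rw [h3]
      congr 2
      ring
    · rw [Finset.piecewise_eq_of_notMem _ _ _ hi, Finset.piecewise_eq_of_notMem _ _ _ hi]
      funext j
      have h3 : mz c (s.map Fin.valEmbedding) i = c i := by
        unfold mz
        rw [if_neg, sub_zero]
        intro h
        obtain ⟨k, hk, hk2⟩ := Finset.mem_map.1 h
        exact hi (Fin.ext hk2 ▸ hk)
      rw [h3]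
  rw [h2, h1, Finset.prod_const, smul_eq_mul]
  congr 1
  unfold DT
  rw [RingHom.map_det]
  rfl

theorem psi_DT (n m : ℕ) (c : ℕ → ℤ) :
    (psi (DT n c)).coeff m = ∑ s ∈ (Finset.range n).powersetCard m, DT n (mz c s) := by
  classical
  have h1 : psi (DT n c) = ∑ s : Finset (Fin n),
      Polynomial.X ^ s.card * Polynomial.C (DT n (mz c (s.map Fin.valEmbedding))) := by
    conv_lhs => unfold DT
    rw [AlgHom.map_det]
    have h2 : (psi.mapMatrix (Matrix.of fun i j : Fin n => hz ℚ (c i + (j : ℤ)))) =
        Matrix.of ((fun i : Fin n => (Polynomial.X : Polynomial (MvPolynomial ℕ ℚ)) •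
        fun j : Fin n => Polynomial.C (hz ℚ (c i + (j : ℤ) - 1))) +
        (fun i : Fin n => fun j : Fin n => Polynomial.C (hz ℚ (c i + (j : ℤ))))) := by
      ext1 i j
      rw [AlgHom.mapMatrix_apply, Matrix.map_apply, Matrix.of_apply, Matrix.of_apply, psi_hz]
      rw [add_comm]
      rfl
    rw [h2]
    have h3 := MultilinearMap.map_add_univ
      (Matrix.detRowAlternating (R := Polynomial (MvPolynomial ℕ ℚ)) (n := Fin n)).toMultilinearMap
      (fun i : Fin n => (Polynomial.X : Polynomial (MvPolynomial ℕ ℚ)) •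
        fun j : Fin n => Polynomial.C (hz ℚ (c i + (j : ℤ) - 1)))
        (fun i : Fin n => fun j : Fin n => Polynomial.C (hz ℚ (c i + (j : ℤ))))
    refine Eq.trans ?_ (h3.trans (Finset.sum_congr rfl fun s _ => Det_piece n c s))
    rfl
  rw [h1, Polynomial.finsetSum_coeff]
  have h4 : ∀ s : Finset (Fin n), (Polynomial.X ^ s.card *
      Polynomial.C (DT n (mz c (s.map Fin.valEmbedding)))).coeff m =
      if s.card = m then DT n (mz c (s.map Fin.valEmbedding)) else 0 := by
    intro s
    rw [Polynomial.coeff_mul_C, Polynomial.coeff_X_pow]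
    by_cases h : s.card = m
    · rw [if_pos h, if_pos h.symm, one_mul]
    · rw [if_neg h, if_neg fun h' => h h'.symm, zero_mul]
  rw [Finset.sum_congr rfl fun s _ => h4 s, ← Finset.sum_filter]
  have h5 : (Finset.univ.filter fun s : Finset (Fin n) => s.card = m) =
      (Finset.univ : Finset (Fin n)).powersetCard m := by
    ext s
    simp [Finset.mem_powersetCard]
  have h6 : Finset.range n = (Finset.univ : Finset (Fin n)).map Fin.valEmbedding := by
    ext x
    simp only [Finset.mem_range, Finset.mem_map, Finset.mem_univ, true_and]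
    exact ⟨fun h => ⟨⟨x, h⟩, rfl⟩, fun ⟨a, ha⟩ => ha ▸ a.2⟩
  rw [h5, h6, Finset.powersetCard_map, Finset.sum_map]
  rfl

end TPath
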