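import Pool.Agent.Lib.MP_630b78_co.TP.Ar

/-!
# The relation between a path and its image
-/

namespace TPath

open MvPolynomial EllHall

theorem dyck_rs {u : List Bool} (h : Dyck u) : Dyck (rs u) := by
  obtain ⟨h1, h2⟩ := h
  refine ⟨?_, by rw [rs_count_true, rs_count_false, h2]⟩
  rintro p ⟨t, ht⟩
  have h3 : rs t ++ rs p = u := by rw [← rs_append, ht, rs_rs]
  have h4 := h1 (rs t) ⟨rs p, h3⟩
  rw [rs_count_false, rs_count_true] at h4
  have h5 : p.count true + t.count true = u.count false := by
    rw [← List.count_append, ht, rs_count_true]
  have h6 : p.count false + t.count false = u.count true := by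
    rw [← List.count_append, ht, rs_count_false]
  omega

theorem Rel.symm {w w' : List Bool} (h : Rel w w') : Rel w' w := by
  induction h with
  | base u hu =>
    have h1 := Rel.base (rs u) (dyck_rs hu)
    rwa [rs_rs] at h1
  | step u v v' hu _ ih =>
    have h1 := Rel.step (rs u) v' v (dyck_rs hu) ih
    rwa [rs_rs] at h1

theorem Rel.count_true {w w' : List Bool} (h : Rel w w') : w'.count true = w.count true := by
  induction h with
  | base u hu => rw [rs_count_true, hu.2]
  | step u v v' hu _ ih =>
    rw [List.count_append, List.count_append, List.count_cons_self, List.count_cons_self, rs_count_true, hu.2, ih]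

theorem Rel.count_false {w w' : List Bool} (h : Rel w w') : w'.count false = w.count false := by
  induction h with
  | base u hu => rw [rs_count_false, hu.2]
  | step u v v' hu _ ih =>
    rw [List.count_append, List.count_append, List.count_cons_of_ne (by simp), List.count_cons_of_ne (by simp),
      rs_count_false, hu.2, ih]

theorem Rel.ar_eq {w w' : List Bool} (h : Rel w w') (n : ℕ) : ar n w' = ar n w := by
  induction h generalizing n with
  | base u hu => rw [ar_shift n (rs u), ar_shift n u, ar_rs, rs_count_false, hu.2]
  | step u v v' hu _ ih =>
    have h1 : ar n (rs u) = ar n u := by rw [ar_shift n (rs u), ar_shift n u, ar_rs, rs_count_false, hu.2]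
    rw [ar_append, ar_append, h1, rs_count_true, hu.2]
    have h2 : ar (n + u.count false) (true :: v') = ar (n + u.count false + 1) v' := rfl
    have h3 : ar (n + u.count false) (true :: v) = ar (n + u.count false + 1) v := rfl
    rw [h2, h3, ih]

theorem Rel.nonneg {w w' : List Bool} (h : Rel w w') : Nonneg w := by
  induction h with
  | base u hu => exact hu.1
  | step u v v' hu _ ih =>
    intro p hp
    rcases prefix_app.1 hp with h1 | ⟨r, h1, rfl⟩
    · exact hu.1 p h1
    · rcases r with _ | ⟨a, r⟩
      · rw [List.append_nil, hu.2]
      · obtain ⟨rfl, h2⟩ := (List.cons_prefix_cons).1 h1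
        have h3 := ih r h2
        have h4 := hu.2
        rw [List.count_append, List.count_append, List.count_cons_self, List.count_cons_of_ne (by simp)]
        omega

end TPath
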