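import Pool.Agent.Lib.MP_630b78_co.TP.Vr
import Pool.Agent.Lib.MP_630b78_co.TP.Rel

/-!
# Domination of the runs
-/

namespace TPath

open MvPolynomial EllHall

private theorem mon_le {f : Multiset ℕ → ℕ} (hf : Mon f) (s j : ℕ) (α : Multiset ℕ) : f (j ::ₘ α) ≤ f ((s + j) ::ₘ α) := by
  induction s with
  | zero => rw [Nat.zero_add]
  | succ s ih =>
    have h1 := hf.succ (s + j) α
    have h2 : s + 1 + j = s + j + 1 := by omega
    rw [h2]
    exact ih.trans h1

private theorem mon_zero {f : Multiset ℕ → ℕ} (hf : Mon f) (x : List ℕ) : f ((x ++ [0] : List ℕ) : Multiset ℕ) = f (x : Multiset ℕ) := by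
  have h : ((x ++ [0] : List ℕ) : Multiset ℕ) = 0 ::ₘ (x : Multiset ℕ) := by
    rw [← Multiset.coe_add, Multiset.coe_singleton, Multiset.add_comm, Multiset.singleton_add]
  rw [h]
  exact hf.zero _

theorem Rel.dom {w w' : List Bool} (h : Rel w w') : ∀ (f : Multiset ℕ → ℕ), Mon f → ∀ s : ℕ,
    f (vr 0 (rs w) : Multiset ℕ) ≤ f (vr s w' : Multiset ℕ) := by
  induction h with
  | base u hu =>
    intro f hf s
    obtain ⟨j, l, hj⟩ := vr_head (rs u)
    rw [hj 0, hj s, Nat.zero_add, ← Multiset.cons_coe, ← Multiset.cons_coe]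
    exact mon_le hf s j _
  | step u v v' hu hv ih =>
    intro f hf s
    have h1 : rs (u ++ true :: v) = rs v ++ false :: rs u := by
      rw [rs_append, rs_cons, Bool.not_true, List.append_assoc, List.singleton_append]
    rw [h1, vr_append_false]
    cases u with
    | nil =>
      have h2 : vr 0 (rs []) = [0] := rfl
      have h3 : vr s (rs [] ++ true :: v') = vr (s + 1) v' := rfl
      rw [h2, h3, mon_zero hf]
      exact ih f hf (s + 1)
    | cons a u' =>
      have ha : a = true := by
        have h2 := hu.1 [a] ⟨u', rfl⟩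
        cases a
        · simp at h2
        · rfl
      subst ha
      have h3 : rs (true :: u') = rs u' ++ [false] := rs_cons true u'
      rw [h3, vr_append_false 0 (rs u') [], List.append_assoc, List.singleton_append, vr_append_false]
      have h4 : vr 0 [] = [0] := rfl
      have h5 : vr 0 (true :: v') = vr 1 v' := rfl
      rw [h4, h5, ← List.append_assoc, mon_zero hf]
      have h6 := ih (fun α => f (α + (vr 0 (rs u') : Multiset ℕ))) (hf.add _) 1
      rw [← Multiset.coe_add, ← Multiset.coe_add]
      refine h6.trans ?_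
      obtain ⟨j, l, hj⟩ := vr_head (rs u')
      rw [hj 0, hj s, Nat.zero_add, ← Multiset.cons_coe, ← Multiset.cons_coe, Multiset.add_cons, Multiset.cons_add,
        Multiset.add_comm (vr 1 v' : Multiset ℕ)]
      exact mon_le hf s j _

end TPath
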