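import Pool.Agent.Lib.MP_630b78_co.TP.Rel

/-!
# Existence and uniqueness of the image
-/

namespace TPath

open MvPolynomial EllHall

private theorem nonneg_prefix {p w : List Bool} (h : Nonneg w) (hp : p <+: w) : Nonneg p :=
  fun q hq => h q (hq.trans hp)

private theorem not_dyck {u v : List Bool} (hu : Dyck u) (hv : Nonneg v) : ¬ Dyck (u ++ true :: v) := by
  rintro ⟨-, h⟩
  have h1 := hv v (List.prefix_refl v)
  have h2 := hu.2
  rw [List.count_append, List.count_append, List.count_cons_self, List.count_cons_of_ne (by decide)] at h
  omega

private theorem split_unique {u u' v v' : List Bool} (hu : Dyck u) (hu' : Dyck u') (hv : Nonneg v) (hv' : Nonneg v')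
    (h : u ++ true :: v = u' ++ true :: v') : u = u' ∧ v = v' := by
  rcases List.append_eq_append_iff.1 h with ⟨c, h1, h2⟩ | ⟨c, h1, h2⟩
  · cases c with
    | nil =>
      rw [List.append_nil] at h1
      rw [List.nil_append] at h2
      exact ⟨h1.symm, (List.cons.inj h2).2⟩
    | cons a x =>
      exfalso
      rw [List.cons_append] at h2
      obtain ⟨h3, h4⟩ := List.cons.inj h2
      subst h3
      refine not_dyck hu (nonneg_prefix hv ⟨true :: v', h4.symm⟩) ?_
      rw [← h1]
      exact hu'
  · cases c with
    | nil =>
      rw [List.append_nil] at h1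
      rw [List.nil_append] at h2
      exact ⟨h1, (List.cons.inj h2).2.symm⟩
    | cons a x =>
      exfalso
      rw [List.cons_append] at h2
      obtain ⟨h3, h4⟩ := List.cons.inj h2
      subst h3
      refine not_dyck hu' (nonneg_prefix hv' ⟨true :: v, h4.symm⟩) ?_
      rw [← h1]
      exact hu

private theorem rel_inv {w w' : List Bool} (h : Rel w w') : (Dyck w ∧ w' = rs w) ∨
    ∃ u v v', w = u ++ true :: v ∧ w' = rs u ++ true :: v' ∧ Dyck u ∧ Rel v v' := by
  cases h with
  | base _ hu => exact Or.inl ⟨hu, rfl⟩
  | step u v v' hu hv => exact Or.inr ⟨u, v, v', rfl, rfl, hu, hv⟩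

theorem Rel.unique {w w' w'' : List Bool} (h : Rel w w') (h2 : Rel w w'') : w' = w'' := by
  induction h generalizing w'' with
  | base u hu =>
    rcases rel_inv h2 with ⟨-, h3⟩ | ⟨u1, v1, v1', h3, -, h5, h6⟩
    · exact h3.symm
    · exfalso
      refine not_dyck h5 h6.nonneg ?_
      rw [← h3]
      exact hu
  | step u v v' hu hv ih =>
    rcases rel_inv h2 with ⟨h3, -⟩ | ⟨u1, v1, v1', h3, h4, h5, h6⟩
    · exact absurd h3 (not_dyck hu hv.nonneg)
    · obtain ⟨e1, e2⟩ := split_unique hu h5 hv.nonneg h6.nonneg h3
      subst e1 e2
      rw [h4, ih h6]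

private theorem split_ex (w : List Bool) (h : Nonneg w) :
    Dyck w ∨ ∃ u v, w = u ++ true :: v ∧ Dyck u ∧ Nonneg v := by
  induction w using List.reverseRecOn with
  | nil => exact Or.inl ⟨h, rfl⟩
  | append_singleton w a ih =>
    rcases ih (nonneg_prefix h (List.prefix_append _ _)) with h1 | ⟨u, v, h1, h2, h3⟩
    · cases a with
      | true => exact Or.inr ⟨w, [], rfl, h1, fun p hp => by rw [List.prefix_nil.1 hp]; exact le_rfl⟩
      | false =>
        exfalso
        have h4 := h _ (List.prefix_refl _)
        have h5 := h1.2
        rw [List.count_append, List.count_append] at h4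
        simp at h4
        omega
    · by_cases h4 : Nonneg (v ++ [a])
      · exact Or.inr ⟨u, v ++ [a], by rw [h1, List.append_assoc, List.cons_append], h2, h4⟩
      · left
        refine ⟨h, ?_⟩
        have h5 : ¬ (v ++ [a]).count false ≤ (v ++ [a]).count true := by
          intro h6
          apply h4
          intro p hp
          rcases prefix_app.1 hp with h7 | ⟨r, h7, h8⟩
          · exact h3 p h7
          · cases r with
            | nil =>
              rw [List.append_nil] at h8
              rw [h8]
              exact h3 v (List.prefix_refl v)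
            | cons b r =>
              obtain ⟨t, ht⟩ := h7
              rw [List.cons_append] at ht
              obtain ⟨e1, e2⟩ := List.cons.inj ht
              have e3 : r = [] := (List.append_eq_nil_iff.1 e2).1
              rw [h8, e1, e3]
              exact h6
        have h6 := h3 v (List.prefix_refl v)
        have h7 := h2.2
        have h8 := h _ (List.prefix_refl _)
        rw [h1] at h8 ⊢
        simp only [List.count_append] at h5 h8 ⊢
        cases a with
        | true => simp at h5; omega
        | false =>
          simp at h5 h8 ⊢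
          omega

theorem Rel.ex {w : List Bool} (h : Nonneg w) : ∃ w', Rel w w' := by
  induction hn : w.length using Nat.strong_induction_on generalizing w with
  | _ n ih =>
    rcases split_ex w h with h1 | ⟨u, v, h1, h2, h3⟩
    · exact ⟨rs w, Rel.base w h1⟩
    · have h4 : v.length < n := by
        rw [← hn, h1, List.length_append, List.length_cons]
        omega
      obtain ⟨v', hv'⟩ := ih v.length h4 h3 rfl
      exact ⟨rs u ++ true :: v', h1 ▸ Rel.step u v v' h2 hv'⟩

end TPath
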