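import Pool.Agent.Lib.MP_630b78_co.TP.Defs

/-!
# Families
-/

namespace TPath

open MvPolynomial EllHall

private theorem pol_zero : pol 0 = 0 := by simp [pol]

private theorem pol_add (L M : Multiset (ℕ × Multiset ℕ)) : pol (L + M) = pol L + pol M := by simp [pol]

private theorem pol_cons (x : ℕ × Multiset ℕ) (M : Multiset (ℕ × Multiset ℕ)) : pol (x ::ₘ M) =
    Polynomial.X ^ x.1 * Polynomial.C ((x.2.map (ee ℚ)).prod) + pol M := by simp [pol]

private def tr (x : ℕ × Multiset ℕ) (M : Multiset (ℕ × Multiset ℕ)) : Multiset (ℕ × Multiset ℕ) :=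
  M.map fun y => (x.1 + y.1, x.2 + y.2)

private theorem pol_tr (x : ℕ × Multiset ℕ) (M : Multiset (ℕ × Multiset ℕ)) :
    pol (tr x M) = Polynomial.X ^ x.1 * Polynomial.C ((x.2.map (ee ℚ)).prod) * pol M := by
  induction M using Multiset.induction_on with
  | empty => simp [tr, pol]
  | cons y M ih =>
    have h : tr x (y ::ₘ M) = (x.1 + y.1, x.2 + y.2) ::ₘ tr x M := by simp [tr]
    rw [h, pol_cons, ih, pol_cons, mul_add]
    congr 1
    simp only [Multiset.map_add, Multiset.prod_add, pow_add, Polynomial.C_mul]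
    ring

private def mu (L M : Multiset (ℕ × Multiset ℕ)) : Multiset (ℕ × Multiset ℕ) := L.bind fun x => tr x M

private theorem pol_mu (L M : Multiset (ℕ × Multiset ℕ)) : pol (mu L M) = pol L * pol M := by
  induction L using Multiset.induction_on with
  | empty => simp [mu, pol]
  | cons x L ih =>
    have h : mu (x ::ₘ L) M = tr x M + mu L M := by simp [mu]
    rw [h, pol_add, ih, pol_tr, pol_cons]
    ring

private def ev (f : ℕ → Multiset ℕ → ℕ) (L : Multiset (ℕ × Multiset ℕ)) : ℕ := (L.map fun x => f x.1 x.2).sum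

private theorem ev_tr (f : ℕ → Multiset ℕ → ℕ) (x : ℕ × Multiset ℕ) (M : Multiset (ℕ × Multiset ℕ)) :
    ev f (tr x M) = ev (fun n α => f (x.1 + n) (x.2 + α)) M := by
  simp [ev, tr, Multiset.map_map]

private theorem ev_mu (f : ℕ → Multiset ℕ → ℕ) (L M : Multiset (ℕ × Multiset ℕ)) :
    ev f (mu L M) = (L.map fun x => (M.map fun y => f (x.1 + y.1) (x.2 + y.2)).sum).sum := by
  induction L using Multiset.induction_on with
  | empty => simp [mu, ev]
  | cons x L ih =>
    have h : mu (x ::ₘ L) M = tr x M + mu L M := by simp [mu]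
    rw [h, Multiset.map_cons, Multiset.sum_cons, ← ih]
    unfold ev
    rw [Multiset.map_add, Multiset.sum_add]
    congr 1
    simp [tr, Multiset.map_map]

private theorem ev_mu' (f : ℕ → Multiset ℕ → ℕ) (L M : Multiset (ℕ × Multiset ℕ)) :
    ev f (mu L M) = (M.map fun y => (L.map fun x => f (x.1 + y.1) (x.2 + y.2)).sum).sum := by
  rw [ev_mu]
  exact Multiset.sum_map_sum_map L M

private theorem sum_le {ι : Type} (L : Multiset ι) (f g : ι → ℕ) (h : ∀ x ∈ L, f x ≤ g x) : (L.map f).sum ≤ (L.map g).sum := by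
  induction L using Multiset.induction_on with
  | empty => simp
  | cons x L ih =>
    rw [Multiset.map_cons, Multiset.map_cons, Multiset.sum_cons, Multiset.sum_cons]
    exact add_le_add (h x (Multiset.mem_cons_self x L)) (ih fun y hy => h y (Multiset.mem_cons_of_mem hy))

private theorem nz_add (α β : Multiset ℕ) : nz (α + β) = nz α + nz β := by
  unfold nz
  rw [Multiset.filter_add, Multiset.card_add]

theorem Cmp.zero (A B : ℕ) : Cmp A B 0 0 :=
  ⟨0, 0, by simp [pol], by simp [pol], by simp, by simp, fun f _ => by simp, fun g => by simp⟩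

theorem Cmp.one : Cmp 0 0 1 1 := by
  exact ⟨{(0, 0)}, {(0, 0)}, by simp [pol], by simp [pol], by simp, by simp, fun f _ => le_rfl, fun g => rfl⟩

theorem Cmp.add {A B : ℕ} {P Q P' Q' : Polynomial (MvPolynomial ℕ ℚ)} (h : Cmp A B P Q) (h' : Cmp A B P' Q') :
    Cmp A B (P + P') (Q + Q') := by
  obtain ⟨L, M, h1, h2, h3, h4, h5, h6⟩ := h
  obtain ⟨L', M', h1', h2', h3', h4', h5', h6'⟩ := h'
  refine ⟨L + L', M + M', by rw [pol_add, h1, h1'], by rw [pol_add, h2, h2'], fun x hx => ?_, fun x hx => ?_,
    fun f hf => ?_, fun g => ?_⟩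
  · rcases Multiset.mem_add.1 hx with h | h
    · exact h3 x h
    · exact h3' x h
  · rcases Multiset.mem_add.1 hx with h | h
    · exact h4 x h
    · exact h4' x h
  · rw [Multiset.map_add, Multiset.sum_add, Multiset.map_add, Multiset.sum_add]
    exact add_le_add (h5 f hf) (h5' f hf)
  · rw [Multiset.map_add, Multiset.sum_add, Multiset.map_add, Multiset.sum_add, h6 g, h6' g]

theorem Cmp.mul {A B A' B' : ℕ} {P Q P' Q' : Polynomial (MvPolynomial ℕ ℚ)} (h : Cmp A B P Q) (h' : Cmp A' B' P' Q') :
    Cmp (A + A') (B + B') (P * P') (Q * Q') := by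
  obtain ⟨L, M, h1, h2, h3, h4, h5, h6⟩ := h
  obtain ⟨L', M', h1', h2', h3', h4', h5', h6'⟩ := h'
  refine ⟨mu L L', mu M M', by rw [pol_mu, h1, h1'], by rw [pol_mu, h2, h2'], fun x hx => ?_, fun x hx => ?_,
    fun f hf => ?_, fun g => ?_⟩
  · unfold mu at hx
    obtain ⟨y, hy, hx⟩ := Multiset.mem_bind.1 hx
    unfold tr at hx
    obtain ⟨z, hz, rfl⟩ := Multiset.mem_map.1 hx
    simp only [Multiset.sum_add]
    rw [h3 y hy, h3' z hz]
  · unfold mu at hx
    obtain ⟨y, hy, hx⟩ := Multiset.mem_bind.1 hx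
    unfold tr at hx
    obtain ⟨z, hz, rfl⟩ := Multiset.mem_map.1 hx
    simp only [Multiset.sum_add]
    rw [h4 y hy, h4' z hz]
  · change ev f (mu L L') ≤ ev f (mu M M')
    have e1 : ev f (mu L L') ≤ ev f (mu L M') := by
      rw [ev_mu, ev_mu]
      refine sum_le L _ _ fun x _ => ?_
      refine h5' (fun n α => f (x.1 + n) (x.2 + α)) fun n => ?_
      have := (hf (x.1 + n)).add x.2
      refine ⟨fun α => ?_, fun y α => ?_⟩
      · have h := this.zero α
        simp only [add_comm _ x.2] at h
        exact h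
      · have h := this.succ y α
        simp only [add_comm _ x.2] at h
        exact h
    have e2 : ev f (mu L M') ≤ ev f (mu M M') := by
      rw [ev_mu', ev_mu']
      refine sum_le M' _ _ fun y _ => ?_
      exact h5 (fun n α => f (n + y.1) (α + y.2)) fun n => (hf (n + y.1)).add y.2
    exact e1.trans e2
  · change ev (fun n α => g n (nz α)) (mu L L') = ev (fun n α => g n (nz α)) (mu M M')
    have e1 : ev (fun n α => g n (nz α)) (mu L L') = ev (fun n α => g n (nz α)) (mu L M') := by
      rw [ev_mu, ev_mu]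
      congr 1
      refine Multiset.map_congr rfl fun x _ => ?_
      simp only [nz_add]
      exact h6' fun n l => g (x.1 + n) (nz x.2 + l)
    have e2 : ev (fun n α => g n (nz α)) (mu L M') = ev (fun n α => g n (nz α)) (mu M M') := by
      rw [ev_mu', ev_mu']
      congr 1
      refine Multiset.map_congr rfl fun y _ => ?_
      simp only [nz_add]
      exact h6 fun n l => g (n + y.1) (l + nz y.2)
    exact e1.trans e2

theorem Cmp.coef {A B : ℕ} {P Q : Polynomial (MvPolynomial ℕ ℚ)} (h : Cmp A B P Q) (c : Polynomial ℕ) :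
    Cmp A B (c.map (Nat.castRingHom (MvPolynomial ℕ ℚ)) * P) (c.map (Nat.castRingHom (MvPolynomial ℕ ℚ)) * Q) := by
  induction c using Polynomial.induction_on' with
  | add p q hp hq =>
    rw [Polynomial.map_add, add_mul, add_mul]
    exact hp.add hq
  | monomial n a =>
    induction a with
    | zero =>
      simp only [map_zero, Polynomial.map_zero, zero_mul]
      exact Cmp.zero A B
    | succ a ih =>
      have e : (Polynomial.monomial n (a + 1)).map (Nat.castRingHom (MvPolynomial ℕ ℚ)) =
          (Polynomial.monomial n a).map (Nat.castRingHom (MvPolynomial ℕ ℚ)) + Polynomial.X ^ n := by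
        rw [Polynomial.map_monomial, Polynomial.map_monomial, map_add, map_add, ← Polynomial.C_mul_X_pow_eq_monomial,
          ← Polynomial.C_mul_X_pow_eq_monomial]
        simp
      rw [e, add_mul, add_mul]
      refine ih.add ?_
      have h1 : Cmp 0 0 (Polynomial.X ^ n : Polynomial (MvPolynomial ℕ ℚ)) (Polynomial.X ^ n) :=
        ⟨{(n, 0)}, {(n, 0)}, by simp [pol], by simp [pol], by simp, by simp, fun f _ => le_rfl, fun g => rfl⟩
      have h2 := h1.mul h
      rw [zero_add, zero_add] at h2
      exact h2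

end TPath
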