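import Pool.Agent.Lib.MP_630b78_co.TP.Val
import Pool.Agent.Lib.MP_630b78_co.TP.BarC

/-!
# The functionals
-/

namespace TPath

open MvPolynomial EllHall

private theorem Fun_nat (ρ α : Multiset ℕ) : ∃ n : ℕ, barCoeff ((α.map (ee ℚ)).prod) α.sum ρ = (n : ℚ) := by
  by_cases hρ : ∀ x ∈ ρ, 1 ≤ x
  · rw [barCoeff_SX hρ]
    split_ifs with h
    · obtain ⟨n, hn⟩ := val α (Multiset.card ρ) (rowOf ρ) (rowOf_antitone ρ) (rowOf_pos hρ) (by rw [rowOf_sum]; exact h)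
      rw [rowOf_sum] at hn
      exact ⟨n, hn⟩
    · exact ⟨0, by simp⟩
  · exact ⟨0, by rw [barCoeff_zero_part hρ, Nat.cast_zero]⟩

theorem exists_fun : ∃ f : Multiset ℕ → Multiset ℕ → ℕ, (∀ ρ, Mon (f ρ)) ∧
    ∀ ρ α, barCoeff ((α.map (ee ℚ)).prod) α.sum ρ = (f ρ α : ℚ) := by
  choose f hf using Fun_nat
  refine ⟨f, fun ρ => ⟨fun α => ?_, fun x α => ?_⟩, hf⟩
  · have h1 := hf ρ (0 ::ₘ α)
    have h2 := hf ρ α
    have h3 : ee ℚ 0 = 1 := by rw [ee]
    rw [Multiset.map_cons, Multiset.prod_cons, Multiset.sum_cons, h3, one_mul, zero_add, h2] at h1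
    exact_mod_cast h1.symm
  · have h1 := hf ρ (x ::ₘ α)
    have h2 := hf ρ ((x + 1) ::ₘ α)
    rw [Multiset.map_cons, Multiset.prod_cons, Multiset.sum_cons] at h1 h2
    by_cases hρ : ∀ x ∈ ρ, 1 ≤ x
    · rw [barCoeff_SX hρ] at h1 h2
      by_cases h : ρ.sum + Multiset.card ρ ≤ x + α.sum
      · rw [if_pos h] at h1
        rw [if_pos (by omega)] at h2
        obtain ⟨n, hn⟩ := mono x α (Multiset.card ρ) (rowOf ρ) (rowOf_antitone ρ) (rowOf_pos hρ)
          (by rw [rowOf_sum]; omega)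
        rw [rowOf_sum, add_comm α.sum (x + 1), add_comm α.sum x, h1, h2] at hn
        have h3 : f ρ ((x + 1) ::ₘ α) = f ρ (x ::ₘ α) + n := by exact_mod_cast hn
        omega
      · rw [if_neg h] at h1
        have h3 : f ρ (x ::ₘ α) = 0 := by exact_mod_cast h1.symm
        omega
    · rw [barCoeff_zero_part hρ] at h1
      have h3 : f ρ (x ::ₘ α) = 0 := by exact_mod_cast h1.symm
      omega

end TPath
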