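import Pool.Agent.Lib.MP_630b78_co.TP.Defs

/-!
# The cells below the diagonal
-/

namespace TPath

open MvPolynomial EllHall

private theorem low_ind (a b k : ℕ) : low a b k =
    ∑ e ∈ Finset.range (a * k), ∑ y ∈ Finset.range (b * k), if a * y < b * (e + 1) then 1 else 0 := by
  unfold low
  exact Finset.sum_congr rfl fun e _ => Finset.card_filter _ _

theorem low_comm (a b k : ℕ) : low a b k = low b a k := by
  rw [low_ind, low_ind b a, Finset.sum_comm (s := Finset.range (b * k)),
    ← Finset.sum_range_reflect _ (a * k)]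
  refine Finset.sum_congr rfl fun e he => ?_
  rw [← Finset.sum_range_reflect _ (b * k)]
  refine Finset.sum_congr rfl fun y hy => ?_
  rw [Finset.mem_range] at he hy
  have h1 : a * k - 1 - e + 1 = a * k - e := by omega
  rw [h1]
  refine if_congr ?_ rfl rfl
  obtain ⟨u, hu⟩ : ∃ u, a * k = u + e + 1 := ⟨a * k - e - 1, by omega⟩
  obtain ⟨v, hv⟩ : ∃ v, b * k = v + y + 1 := ⟨b * k - y - 1, by omega⟩
  have h2 : b * k - 1 - y = v := by omega
  have h3 : a * k - e = u + 1 := by omega
  rw [h2, h3]
  have h4 : a * (v + y + 1) = b * (u + e + 1) := by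
    rw [← hu, ← hv]
    ring
  constructor <;> intro h <;> nlinarith

end TPath
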