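import Pool.Agent.Lib.MP_630b78_co.TP.Refl

/-!
# The number of the nonempty runs
-/

namespace TPath

open MvPolynomial EllHall

/-- the number of the north steps followed by an east step, with one letter in front -/
private def tf : Bool → List Bool → ℕ
  | _, [] => 0
  | p, x :: w => (if p = true ∧ x = false then 1 else 0) + tf x w

private theorem tf_concat (w : List Bool) (x : Bool) : ∀ p : Bool,
    tf p (w ++ [x]) = tf p w + if (p :: w).getLast? = some true ∧ x = false then 1 else 0 := by
  induction w with
  | nil => intro p; simp [tf]
  | cons a w ih =>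
    intro p
    rw [List.cons_append, tf, ih a, tf, List.getLast?_cons_cons, add_assoc]

private theorem rs_getLast? (w : List Bool) : (rs w).getLast? = w.head?.map not := by
  cases w with
  | nil => rfl
  | cons x w => rw [rs_cons]; simp

private theorem getLast?_false (w : List Bool) : (false :: w).getLast? = some true ↔ w.getLast? = some true := by
  cases w with
  | nil => simp
  | cons y w => rw [List.getLast?_cons_cons]

private theorem tf_rs (w : List Bool) : tf false (rs w) = tf false w := by
  induction w with
  | nil => rfl
  | cons x w ih =>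
    rw [rs_cons, tf_concat, ih]
    simp only [getLast?_false, rs_getLast?]
    cases w with
    | nil => cases x <;> simp [tf]
    | cons y w => cases x <;> cases y <;> simp [tf, add_comm]

private theorem nz_cons (x : ℕ) (l : List ℕ) : nz ((x :: l : List ℕ) : Multiset ℕ) =
    (if x ≠ 0 then 1 else 0) + nz (l : Multiset ℕ) := by
  unfold nz
  rw [← Multiset.cons_coe, Multiset.filter_cons, Multiset.card_add]
  split_ifs <;> simp

private theorem nz_vr (w : List Bool) : ∀ m : ℕ, nz (vr m w : Multiset ℕ) =
    tf (decide (m ≠ 0)) w + (if (decide (m ≠ 0) :: w).getLast? = some true then 1 else 0) := by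
  induction w with
  | nil =>
    intro m
    have e : vr m [] = [m] := rfl
    rw [e, nz_cons]
    by_cases hm : m = 0
    · simp [hm, nz, tf]
    · simp [hm, nz, tf]
  | cons x w ih =>
    intro m
    rw [List.getLast?_cons_cons, tf]
    cases x with
    | true =>
      have e : vr m (true :: w) = vr (m + 1) w := rfl
      rw [e, ih (m + 1)]
      simp
    | false =>
      have e : vr m (false :: w) = m :: vr 0 w := rfl
      rw [e, nz_cons, ih 0]
      simp only [ne_eq, decide_eq_true_eq, and_true, not_true_eq_false, decide_false]
      ring

/-- a primitive path ends with an east step -/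
private theorem prim_last {a b k : ℕ} (ha : 1 ≤ a) (hb : 1 ≤ b) (hk : 1 ≤ k) {w : List Bool} (hw : w ∈ prim a b k) :
    w.getLast? ≠ some true := by
  intro h
  have h1 := (Finset.mem_filter.1 hw).2
  obtain ⟨h2, h3, h4⟩ := h1
  obtain ⟨v, rfl⟩ : ∃ v, w = v ++ [true] := by
    rcases List.eq_nil_or_concat' w with h5 | ⟨v, x, h5⟩
    · rw [h5] at h
      simp at h
    · rw [h5, List.getLast?_concat] at h
      have h6 : x = true := by simpa using h
      exact ⟨v, by rw [h5, h6]⟩
  have h5 := h4 v (List.mem_inits _ _ |>.2 (List.prefix_append v [true]))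
  rw [List.count_append] at h2 h3
  have e1 : List.count true [true] = 1 := rfl
  have e2 : List.count false [true] = 0 := rfl
  rw [e1] at h2
  rw [e2, add_zero] at h3
  have h6 : v ≠ [] := by
    rintro rfl
    have e3 : List.count false ([] : List Bool) = 0 := rfl
    rw [e3] at h3
    have := Nat.mul_le_mul ha hk
    omega
  have h7 : v ≠ v ++ [true] := by
    intro h8
    have := congrArg List.length h8
    simp at this
  have h8 := h5 h6 h7
  rw [h3] at h8
  have h9 : List.count true v < b * k := by omega
  have h10 : a * List.count true v < a * (b * k) := Nat.mul_lt_mul_of_pos_left h9 ha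
  have h11 : a * (b * k) = b * (a * k) := by ring
  omega

theorem nz_rs {a b k : ℕ} (ha : 1 ≤ a) (hb : 1 ≤ b) (hk : 1 ≤ k) {w : List Bool} (hw : w ∈ prim a b k) :
    nz (vr 0 (rs w) : Multiset ℕ) = nz (vr 0 w : Multiset ℕ) := by
  rw [nz_vr, nz_vr]
  have e : decide ((0 : ℕ) ≠ 0) = false := rfl
  rw [e, tf_rs]
  simp only [getLast?_false]
  rw [if_neg (prim_last ha hb hk hw), if_neg (prim_last hb ha hk (prim_rs hw))]

end TPath
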