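import Pool.Agent.Lib.MP_630b78_co.TP.Defs

/-!
# Reflection of the primitive paths
-/

namespace TPath

open MvPolynomial EllHall

theorem prim_rs {a b k : ℕ} {w : List Bool} (hw : w ∈ prim a b k) : rs w ∈ prim b a k := by
  unfold prim at hw ⊢
  rw [Finset.mem_filter, mem_words] at hw ⊢
  obtain ⟨hl, h1, h2, h3⟩ := hw
  refine ⟨?_, ?_, ?_, ?_⟩
  · unfold rs
    rw [List.length_reverse, List.length_map, hl, add_comm]
  · rw [rs_count_true, h2]
  · rw [rs_count_false, h1]
  · intro p hp hp1 hp2
    rw [List.mem_inits] at hp
    obtain ⟨t, ht⟩ := hp
    have hw' : w = rs t ++ rs p := by rw [← rs_append, ht, rs_rs]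
    have hpre : rs t ∈ w.inits := by
      rw [List.mem_inits]
      exact ⟨rs p, hw'.symm⟩
    have hn : rs t ≠ [] := by
      intro h
      apply hp2
      have : t = [] := by rw [← rs_rs t, h]; rfl
      rw [this, List.append_nil] at ht
      exact ht
    have hn' : rs t ≠ w := by
      intro h
      apply hp1
      have h5 : rs p = [] := by
        rw [← h] at hw'
        exact List.self_eq_append_right.1 hw'
      rw [← rs_rs p, h5]
      rfl
    have h6 := h3 _ hpre hn hn'
    have e1 : b * k = (rs t).count true + p.count false := by
      rw [← h1, hw', List.count_append, rs_count_true p]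
    have e2 : a * k = (rs t).count false + p.count true := by
      rw [← h2, hw', List.count_append, rs_count_false p]
    have e3 : a * ((rs t).count true + p.count false) = b * ((rs t).count false + p.count true) := by
      rw [← e1, ← e2]
      ring
    rw [mul_add, mul_add] at e3
    omega

end TPath
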