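import Pool.Agent.Lib.MP_630b78_co.TP.Ex
import Pool.Agent.Lib.MP_630b78_co.TP.Dom
import Pool.Agent.Lib.MP_630b78_co.TP.Bd
import Pool.Agent.Lib.MP_630b78_co.TP.Prm
import Pool.Agent.Lib.MP_630b78_co.TP.Refl
import Pool.Agent.Lib.MP_630b78_co.TP.Area
import Pool.Agent.Lib.MP_630b78_co.TP.Low
import Pool.Agent.Lib.MP_630b78_co.TP.Pk

/-!
# The comparison for one primitive path
-/

namespace TPath

open MvPolynomial EllHall

private theorem key_rs_area {a b k : ℕ} {w : List Bool} (hw : w ∈ prim b a k) :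
    area b a 0 0 w = area a b 0 0 (rs w) := by
  have h1 := ar_area hw
  have h2 := ar_area (prim_rs hw)
  rw [ar_rs, low_comm a b k] at h2
  omega

theorem key (a b k : ℕ) (ha : 1 ≤ a) (hab : a < b) (hk : 1 ≤ k) (f : ℕ → Multiset ℕ → ℕ) (hf : ∀ n, Mon (f n)) :
    ∑ w ∈ prim b a k, f (area b a 0 0 w) (vr 0 w : Multiset ℕ) ≤
      ∑ w ∈ prim a b k, f (area a b 0 0 w) (vr 0 w : Multiset ℕ) := by
  have hb : 1 ≤ b := by omega
  have hex : ∀ w : List Bool, ∃ w', w ∈ prim a b k → Rel w w' := by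
    intro w
    by_cases hw : w ∈ prim a b k
    · obtain ⟨w', h⟩ := Rel.ex (prim_nonneg ha hab w hw)
      exact ⟨w', fun _ => h⟩
    · exact ⟨[], fun h => absurd h hw⟩
  choose θ hθ using hex
  have hmem : ∀ w ∈ prim a b k, θ w ∈ prim a b k := by
    intro w hw
    have hr := hθ w hw
    rw [mem_prim ha hb hk] at hw ⊢
    refine ⟨by rw [hr.count_true, hw.1], by rw [hr.count_false, hw.2.1], ?_⟩
    refine hr.above (bdry a b k) 0 0 (fun i hi => bdry_lt ha hab hk i ?_) hw.2.2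
    rw [hw.2.1] at hi
    omega
  have hinv : ∀ w ∈ prim a b k, θ (θ w) = w := fun w hw =>
    (hθ (θ w) (hmem w hw)).unique (hθ w hw).symm
  have harea : ∀ w ∈ prim a b k, area a b 0 0 w = area a b 0 0 (θ w) := by
    intro w hw
    have h1 := ar_area hw
    have h2 := ar_area (hmem w hw)
    have h3 := (hθ w hw).ar_eq 0
    omega
  have hl : ∑ w ∈ prim b a k, f (area b a 0 0 w) (vr 0 w : Multiset ℕ) =
      ∑ w ∈ prim a b k, f (area a b 0 0 w) (vr 0 (rs w) : Multiset ℕ) := by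
    refine Finset.sum_nbij' rs rs (fun w hw => prim_rs hw) (fun w hw => prim_rs hw)
      (fun w _ => rs_rs w) (fun w _ => rs_rs w) (fun w hw => ?_)
    rw [rs_rs, key_rs_area hw]
  have hr : ∑ w ∈ prim a b k, f (area a b 0 0 w) (vr 0 w : Multiset ℕ) =
      ∑ w ∈ prim a b k, f (area a b 0 0 w) (vr 0 (θ w) : Multiset ℕ) := by
    refine Finset.sum_nbij' θ θ hmem hmem hinv hinv (fun w hw => ?_)
    rw [hinv w hw, harea w hw]
  rw [hl, hr]
  exact Finset.sum_le_sum fun w hw => (hθ w hw).dom (f (area a b 0 0 w)) (hf _) 0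

theorem key_eq (a b k : ℕ) (ha : 1 ≤ a) (hb : 1 ≤ b) (hk : 1 ≤ k) (g : ℕ → ℕ → ℕ) :
    ∑ w ∈ prim b a k, g (area b a 0 0 w) (nz (vr 0 w : Multiset ℕ)) =
      ∑ w ∈ prim a b k, g (area a b 0 0 w) (nz (vr 0 w : Multiset ℕ)) := by
  refine Finset.sum_nbij' rs rs (fun w hw => prim_rs hw) (fun w hw => prim_rs hw)
    (fun w _ => rs_rs w) (fun w _ => rs_rs w) (fun w hw => ?_)
  rw [nz_rs hb ha hk hw, key_rs_area hw]

end TPath
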