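import Pool.Agent.Lib.MP_630b78_co.TP.Defs

/-!
# Vertical runs
-/

namespace TPath

open MvPolynomial EllHall

theorem vr_append_false (m : ℕ) (x y : List Bool) : vr m (x ++ false :: y) = vr m x ++ vr 0 y := by
  induction x generalizing m with
  | nil => simp [vr]
  | cons a x ih =>
    cases a
    · simp [vr, ih]
    · simp [vr, ih]

theorem vr_head (x : List Bool) : ∃ (j : ℕ) (l : List ℕ), ∀ m, vr m x = (m + j) :: l := by
  induction x with
  | nil => exact ⟨0, [], fun m => by simp [vr]⟩
  | cons a x ih =>
    obtain ⟨j, l, h⟩ := ih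
    cases a
    · exact ⟨0, vr 0 x, fun m => by simp [vr]⟩
    · refine ⟨j + 1, l, fun m => ?_⟩
      rw [vr, h]
      congr 1
      omega

theorem vr_sum (m : ℕ) (x : List Bool) : (vr m x).sum = m + x.count true := by
  induction x generalizing m with
  | nil => simp [vr]
  | cons a x ih =>
    cases a
    · simp [vr, ih]
    · rw [vr, ih, List.count_cons_self]
      omega

end TPath
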