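import Pool.Agent.Lib.MP_630b78_co.TP.Key
import Pool.Agent.Lib.MP_630b78_co.TP.Fam
import Pool.Agent.Lib.MP_630b78_co.TP.Vr

/-!
# The comparison of the products
-/

namespace TPath

open MvPolynomial EllHall

/-- the family of the primitive paths -/
private noncomputable def mainFam (a b k : ℕ) : Multiset (ℕ × Multiset ℕ) :=
  (prim a b k).val.map fun w => (area a b 0 0 w, (vr 0 w : Multiset ℕ))

private theorem main_S_eq (a b k : ℕ) : S a b k = pol (mainFam a b k) := by
  unfold S pol mainFam
  rw [Multiset.map_map, Finset.sum_eq_multiset_sum]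
  congr 1

private theorem main_sum (a b k : ℕ) : ∀ x ∈ mainFam a b k, x.2.sum = b * k := by
  intro x hx
  unfold mainFam at hx
  obtain ⟨w, hw, rfl⟩ := Multiset.mem_map.1 hx
  have h1 : w ∈ prim a b k := hw
  have h2 := (Finset.mem_filter.1 h1).2.1
  show (vr 0 w : Multiset ℕ).sum = b * k
  rw [Multiset.sum_coe, vr_sum, h2, Nat.zero_add]

private theorem main_fun (a b k : ℕ) (f : ℕ → Multiset ℕ → ℕ) :
    ((mainFam a b k).map fun x => f x.1 x.2).sum =
      ∑ w ∈ prim a b k, f (area a b 0 0 w) (vr 0 w : Multiset ℕ) := by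
  unfold mainFam
  rw [Multiset.map_map, Finset.sum_eq_multiset_sum]
  congr 1

theorem Cmp_S (a b k : ℕ) (ha : 1 ≤ a) (hab : a < b) (hk : 1 ≤ k) : Cmp (a * k) (b * k) (S b a k) (S a b k) := by
  refine ⟨mainFam b a k, mainFam a b k, main_S_eq _ _ _, main_S_eq _ _ _, main_sum _ _ _, main_sum _ _ _, ?_, ?_⟩
  · intro f hf
    rw [main_fun, main_fun]
    exact key a b k ha hab hk f hf
  · intro g
    rw [main_fun b a k fun n α => g n (nz α), main_fun a b k fun n α => g n (nz α)]
    exact key_eq a b k ha (by omega) hk g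

private theorem main_prod (a b : ℕ) (ha : 1 ≤ a) (hab : a < b) (s : Multiset ℕ) :
    (∀ k ∈ s, 1 ≤ k) → Cmp (a * s.sum) (b * s.sum) ((s.map (S b a)).prod) ((s.map (S a b)).prod) := by
  induction s using Multiset.induction_on with
  | empty =>
    intro _
    simpa using Cmp.one
  | cons k s ih =>
    intro h
    have h1 := Cmp_S a b k ha hab (h k (Multiset.mem_cons_self k s))
    have h2 := ih fun j hj => h j (Multiset.mem_cons_of_mem hj)
    have h3 := h1.mul h2
    rw [Multiset.map_cons, Multiset.prod_cons, Multiset.map_cons, Multiset.prod_cons, Multiset.sum_cons,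
      Nat.mul_add, Nat.mul_add]
    exact h3

private theorem main_add {ι : Type*} {A B : ℕ} (P Q : ι → Polynomial (MvPolynomial ℕ ℚ)) (T : Finset ι)
    (h : ∀ i ∈ T, Cmp A B (P i) (Q i)) : Cmp A B (∑ i ∈ T, P i) (∑ i ∈ T, Q i) := by
  classical
  induction T using Finset.induction_on with
  | empty =>
    rw [Finset.sum_empty, Finset.sum_empty]
    exact Cmp.zero A B
  | insert i T hi ih =>
    rw [Finset.sum_insert hi, Finset.sum_insert hi]
    exact (h i (Finset.mem_insert_self i T)).add (ih fun j hj => h j (Finset.mem_insert_of_mem hj))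

theorem Cmp_F (a b d : ℕ) (ha : 1 ≤ a) (hab : a < b) (c : Nat.Partition d → Polynomial ℕ) :
    Cmp (a * d) (b * d) (F b a c) (F a b c) := by
  unfold F
  refine main_add _ _ _ fun μ _ => ?_
  refine Cmp.coef ?_ (c μ)
  have h := main_prod a b ha hab μ.parts fun k hk => μ.parts_pos hk
  rw [μ.parts_sum] at h
  exact h

end TPath
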