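import Pool.Agent.Lib.MP_630b78_co.TP.Rows

/-!
# The rows of length one
-/

namespace TPath

open MvPolynomial EllHall

private theorem tail_zero (p n : ℕ) (c : ℕ → ℤ) (hc : ∀ i, p ≤ i → c i = 1 - (i : ℤ)) (s : Finset ℕ)
    (hs : s ⊆ Finset.range n) (hsp : ¬ s ⊆ Finset.range p) : DT (n + 1) (mz c s) = 0 := by
  obtain ⟨x, hx, hxp⟩ := Finset.not_subset.1 hsp
  have hne : s.Nonempty := ⟨x, hx⟩
  have hi := s.max'_mem hne
  set i := s.max' hne with hidef
  have hxi : x ≤ i := s.le_max' x hx
  have hpi : p ≤ i := by
    rw [Finset.mem_range] at hxp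
    omega
  have hin : i < n := Finset.mem_range.1 (hs hi)
  have hi1 : i + 1 ∉ s := fun h => by
    have := s.le_max' (i + 1) h
    omega
  refine DT_eq_rows (n + 1) _ i (i + 1) (by omega) (by omega) (by omega) ?_
  unfold mz
  rw [if_pos hi, if_neg hi1, hc i hpi, hc (i + 1) (by omega)]
  push_cast
  ring

private theorem tail_ins (n : ℕ) (c : ℕ → ℤ) (hc : c n = 1 - (n : ℤ)) (s : Finset ℕ) :
    DT (n + 1) (mz c (insert n s)) = DT n (mz c s) := by
  rw [DT_last]
  · refine DT_congr n _ _ fun i hi => ?_
    unfold mz
    have : i ∈ insert n s ↔ i ∈ s := by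
      rw [Finset.mem_insert]
      constructor
      · rintro (h | h)
        · omega
        · exact h
      · exact Or.inr
    simp only [this]
  · unfold mz
    rw [if_pos (Finset.mem_insert_self _ _), hc]
    ring

theorem tail (p n m : ℕ) (c : ℕ → ℤ) (hpn : p ≤ n) (hc : ∀ i, p ≤ i → c i = 1 - (i : ℤ)) :
    ∑ s ∈ (Finset.range n).powersetCard m, DT n (mz c s) =
      ∑ s ∈ (Finset.range p).powerset, if s.card ≤ m ∧ m - s.card ≤ n - p then DT (n - (m - s.card)) (mz c s) else 0 := by
  induction n, hpn using Nat.le_induction generalizing m with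
  | base =>
    rw [Finset.powersetCard_eq_filter, Finset.sum_filter]
    refine Finset.sum_congr rfl fun s _ => ?_
    by_cases h : s.card = m
    · rw [if_pos h, if_pos (by omega)]
      congr 1
      omega
    · rw [if_neg h, if_neg (by omega)]
  | succ n hpn ih =>
    rcases m with _ | m
    · rw [Finset.powersetCard_zero, Finset.sum_singleton]
      rw [Finset.sum_eq_single_of_mem ∅ (Finset.empty_mem_powerset _)]
      · rw [if_pos (by simp)]
        simp
      · intro s _ hs
        have : 0 < s.card := Finset.card_pos.2 (Finset.nonempty_iff_ne_empty.2 hs)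
        rw [if_neg (by omega)]
    · have hn : n ∉ Finset.range n := Finset.notMem_range_self
      rw [Finset.range_add_one, Finset.powersetCard_succ_insert hn, Finset.sum_union, Finset.sum_image]
      · have h1 : ∑ s ∈ Finset.powersetCard m (Finset.range n), DT (n + 1) (mz c (insert n s)) =
            ∑ s ∈ Finset.powersetCard m (Finset.range n), DT n (mz c s) :=
          Finset.sum_congr rfl fun s _ => tail_ins n c (hc n hpn) s
        have h2 : ∑ s ∈ Finset.powersetCard (m + 1) (Finset.range n), DT (n + 1) (mz c s) =
            ∑ s ∈ Finset.powersetCard (m + 1) (Finset.range p), DT (n + 1) (mz c s) := by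
          symm
          refine Finset.sum_subset (Finset.powersetCard_mono (Finset.range_mono hpn)) fun s hs hsp => ?_
          rw [Finset.mem_powersetCard] at hs hsp
          exact tail_zero p n c hc s hs.1 fun h => hsp ⟨h, hs.2⟩
        rw [h1, h2, ih m, Finset.powersetCard_eq_filter, Finset.sum_filter, ← Finset.sum_add_distrib]
        refine Finset.sum_congr rfl fun s _ => ?_
        by_cases h : s.card = m + 1
        · rw [if_pos h, if_neg (by omega), if_pos (by omega), add_zero]
          congr 1
          omega
        · rw [if_neg h, zero_add]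
          by_cases h3 : s.card ≤ m ∧ m - s.card ≤ n - p
          · rw [if_pos h3, if_pos (by omega)]
            congr 1
            omega
          · rw [if_neg h3, if_neg (by omega)]
      · intro s hs t ht hst
        rw [Finset.mem_coe, Finset.mem_powersetCard] at hs ht
        have h1 : n ∉ s := fun h => hn (hs.1 h)
        have h2 : n ∉ t := fun h => hn (ht.1 h)
        rw [← Finset.erase_insert h1, ← Finset.erase_insert h2]
        rw [hst]
      · rw [Finset.disjoint_left]
        intro s hs ht
        rw [Finset.mem_powersetCard] at hs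
        rw [Finset.mem_image] at ht
        obtain ⟨t, -, rfl⟩ := ht
        exact hn (hs.1 (Finset.mem_insert_self _ _))

end TPath
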