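import Pool.Agent.Lib.MP_630b78_co.TP.Adj
import Pool.Agent.Lib.MP_630b78_co.TP.Det
import Pool.Agent.Lib.MP_630b78_co.TP.Tail
import Pool.Agent.Lib.MP_630b78_co.EH.Pair

/-!
# The dual Pieri rule
-/

namespace TPath

open MvPolynomial EllHall

private theorem pieri_zero (g : MvPolynomial ℕ ℚ) : hall g 0 = 0 := by
  have h := hall_smul_right (0 : ℚ) g (0 : MvPolynomial ℕ ℚ)
  rwa [zero_smul, zero_mul] at h

private theorem pieri_row (p : ℕ) (ν : ℕ → ℕ) (hν : ∀ i, i < p ↔ 1 ≤ ν i) (s : Finset ℕ) (hs : s ⊆ Finset.range p) :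
    mz (fun i => (ν i : ℤ) + 1 - (i : ℤ)) s = fun i => (mi ν s i : ℤ) + 1 - (i : ℤ) := by
  funext i
  unfold mz mi
  by_cases hi : i ∈ s
  · have h1 := (hν i).1 (Finset.mem_range.1 (hs hi))
    rw [if_pos hi, if_pos hi]
    push_cast [Nat.cast_sub h1]
    ring
  · rw [if_neg hi, if_neg hi]
    simp

theorem pieri (m N k p : ℕ) (ν : ℕ → ℕ) (hν : ∀ i, i < p ↔ 1 ≤ ν i) (hk : k + p ≤ N + m) (g : MvPolynomial ℕ ℚ) :
    hall (ee ℚ m * g) (SX (N + m - k) ν) =
      ∑ s ∈ (Finset.range p).powerset, if s.card ≤ m ∧ k + p ≤ N + s.card then hall g (SX (N + s.card - k) (mi ν s)) else 0 := by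
  have hpn : p ≤ N + m - k := by omega
  have hc : ∀ i, p ≤ i → (fun i : ℕ => (ν i : ℤ) + 1 - (i : ℤ)) i = 1 - (i : ℤ) := by
    intro i hi
    have h0 : ν i = 0 := by
      by_contra h
      have := (hν i).2 (by omega)
      omega
    simp only [h0]
    simp
  have h1 : SX (N + m - k) ν = DT (N + m - k) (fun i : ℕ => (ν i : ℤ) + 1 - (i : ℤ)) := rfl
  rw [hall_ee_mul, h1, psi_DT, tail p (N + m - k) m _ hpn hc, hall_sum_right]
  refine Finset.sum_congr rfl fun s hs => ?_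
  rw [Finset.mem_powerset] at hs
  by_cases h : s.card ≤ m ∧ k + p ≤ N + s.card
  · rw [if_pos h, if_pos (by omega)]
    have h2 : N + m - k - (m - s.card) = N + s.card - k := by omega
    rw [h2, pieri_row p ν hν s hs]
    rfl
  · rw [if_neg h, if_neg (by omega), pieri_zero]

theorem SX_mi_zero (n p : ℕ) (ν : ℕ → ℕ) (hν : Antitone ν) (hp : ∀ i, i < p ↔ 1 ≤ ν i) (hn : p ≤ n) (s : Finset ℕ)
    (hs : s ⊆ Finset.range p) (h : ¬ Antitone (mi ν s)) : SX n (mi ν s) = 0 := by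
  have h1 : ∃ i, mi ν s i < mi ν s (i + 1) := by
    by_contra hcon
    push Not at hcon
    exact h (antitone_nat_of_succ_le hcon)
  obtain ⟨i, hi⟩ := h1
  have h2 : ν (i + 1) ≤ ν i := hν (Nat.le_succ i)
  have h3 : mi ν s (i + 1) ≤ ν (i + 1) := Nat.sub_le _ _
  have his : i ∈ s := by
    by_contra hn
    have h4 : mi ν s i = ν i := by
      unfold mi
      rw [if_neg hn, Nat.sub_zero]
    omega
  have h4 : mi ν s i = ν i - 1 := by
    unfold mi
    rw [if_pos his]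
  have h5 : 1 ≤ ν i := (hp i).1 (Finset.mem_range.1 (hs his))
  have hi1 : i + 1 ∉ s := by
    intro hm
    have h6 : mi ν s (i + 1) = ν (i + 1) - 1 := by
      unfold mi
      rw [if_pos hm]
    omega
  have h6 : mi ν s (i + 1) = ν (i + 1) := by
    unfold mi
    rw [if_neg hi1, Nat.sub_zero]
  have h7 : ν (i + 1) = ν i := by omega
  have h8 : i + 1 < p := (hp (i + 1)).2 (by omega)
  refine DT_eq_rows n _ i (i + 1) (by omega) (by omega) (by omega) ?_
  simp only [h4, h6, h7]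
  push_cast [Nat.cast_sub h5]
  ring

end TPath
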