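import Pool.Agent.Lib.MP_630b78_co.TP.Defs
import Pool.Agent.Lib.MP_630b78_co.EH.Newton

/-!
# The shift of the complete functions
-/

namespace TPath

open MvPolynomial EllHall

private noncomputable def psG (n : ℕ) : Polynomial (MvPolynomial ℕ ℚ) :=
  Polynomial.C (hh ℚ n) + Polynomial.X * Polynomial.C (hz ℚ ((n : ℤ) - 1))

private theorem psG_zero : psG 0 = 1 := by
  unfold psG hz
  rw [if_neg (by norm_num), map_zero, mul_zero, add_zero, hh, map_one]

private theorem psG_succ (n : ℕ) : psG (n + 1) = Polynomial.C (hh ℚ (n + 1)) + Polynomial.X * Polynomial.C (hh ℚ n) := by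
  unfold psG hz
  have h1 : ((n + 1 : ℕ) : ℤ) - 1 = (n : ℤ) := by push_cast; ring
  rw [h1, if_pos (by positivity), Int.toNat_natCast]

private theorem psB (n : ℕ) : ∑ i ∈ Finset.range (n + 1),
    (-1 : Polynomial (MvPolynomial ℕ ℚ)) ^ i * Polynomial.X ^ (i + 1) * psG (n - i) =
      Polynomial.X * Polynomial.C (hh ℚ n) := by
  induction n with
  | zero =>
    rw [zero_add, Finset.sum_range_one, Nat.sub_zero, psG_zero, hh, map_one]
    ring
  | succ n ih =>
    rw [Finset.sum_range_succ']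
    have h1 : ∀ i ∈ Finset.range (n + 1),
        (-1 : Polynomial (MvPolynomial ℕ ℚ)) ^ (i + 1) * Polynomial.X ^ (i + 1 + 1) * psG (n + 1 - (i + 1)) =
          -Polynomial.X * ((-1 : Polynomial (MvPolynomial ℕ ℚ)) ^ i * Polynomial.X ^ (i + 1) * psG (n - i)) := by
      intro i _
      rw [show n + 1 - (i + 1) = n - i by omega]
      ring
    rw [Finset.sum_congr rfl h1, ← Finset.mul_sum, ih, Nat.sub_zero, psG_succ]
    ring

private theorem psN (n : ℕ) : ∑ i ∈ Finset.range n, (X i : MvPolynomial ℕ ℚ) * hh ℚ (n - 1 - i) = (n : ℚ) • hh ℚ n := by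
  rcases n with _ | n
  · simp
  · rw [Nat.add_sub_cancel]
    exact (hh_succ (K := ℚ) n).symm

private theorem psA (n : ℕ) : ∑ i ∈ Finset.range (n + 1), Polynomial.C (X i : MvPolynomial ℕ ℚ) * psG (n - i) =
    ((n + 1 : ℕ) : ℚ) • Polynomial.C (hh ℚ (n + 1)) + (n : ℚ) • (Polynomial.X * Polynomial.C (hh ℚ n)) := by
  unfold psG
  simp_rw [mul_add]
  rw [Finset.sum_add_distrib]
  congr 1
  · have h1 := congrArg (Polynomial.C : MvPolynomial ℕ ℚ → Polynomial (MvPolynomial ℕ ℚ)) (hh_succ (K := ℚ) n)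
    rw [map_sum, ← Polynomial.smul_C] at h1
    rw [h1]
    refine Finset.sum_congr rfl fun i _ => ?_
    rw [map_mul]
  · rw [Finset.sum_range_succ]
    have h0 : hz ℚ (((n - n : ℕ) : ℤ) - 1) = 0 := by
      unfold hz
      rw [if_neg (by simp)]
    rw [h0, map_zero, mul_zero, mul_zero, add_zero]
    have h1 := congrArg (Polynomial.C : MvPolynomial ℕ ℚ → Polynomial (MvPolynomial ℕ ℚ)) (psN n)
    rw [map_sum, ← Polynomial.smul_C] at h1
    rw [← mul_smul_comm, ← h1, Finset.mul_sum]
    refine Finset.sum_congr rfl fun i hi => ?_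
    have hi' := Finset.mem_range.mp hi
    have h2 : hz ℚ (((n - i : ℕ) : ℤ) - 1) = hh ℚ (n - 1 - i) := by
      unfold hz
      rw [if_pos (by omega)]
      congr 1
      omega
    rw [h2, map_mul]
    ring

private theorem psi_X (i : ℕ) : psi (X i) = Polynomial.C (X i) + (-1) ^ i * Polynomial.X ^ (i + 1) := by
  unfold psi
  rw [aeval_X]

private theorem psi_hh (n : ℕ) : psi (hh ℚ n) = psG n := by
  induction n using Nat.strong_induction_on with
  | _ n ih =>
    rcases n with _ | n
    · rw [psG_zero, hh, map_one]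
    · have hc : ((n + 1 : ℕ) : ℚ) ≠ 0 := Nat.cast_ne_zero.mpr (Nat.succ_ne_zero n)
      have h1 := congrArg psi (hh_succ (K := ℚ) n)
      rw [map_smul, map_sum] at h1
      have h2 : ∑ i ∈ Finset.range (n + 1), psi (X i * hh ℚ (n - i)) =
          ∑ i ∈ Finset.range (n + 1), Polynomial.C (X i : MvPolynomial ℕ ℚ) * psG (n - i) +
          ∑ i ∈ Finset.range (n + 1),
            (-1 : Polynomial (MvPolynomial ℕ ℚ)) ^ i * Polynomial.X ^ (i + 1) * psG (n - i) := by
        rw [← Finset.sum_add_distrib]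
        refine Finset.sum_congr rfl fun i hi => ?_
        have hi' := Finset.mem_range.mp hi
        rw [map_mul, ih (n - i) (by omega), psi_X, add_mul]
      rw [h2, psA, psB] at h1
      have h3 : ((n + 1 : ℕ) : ℚ) • psi (hh ℚ (n + 1)) = ((n + 1 : ℕ) : ℚ) • psG (n + 1) := by
        rw [h1, psG_succ, smul_add]
        rw [add_assoc]
        congr 1
        rw [Nat.cast_succ, add_smul, one_smul]
      exact smul_right_injective (Polynomial (MvPolynomial ℕ ℚ)) hc h3

theorem psi_hz (z : ℤ) : psi (hz ℚ z) = Polynomial.C (hz ℚ z) + Polynomial.X * Polynomial.C (hz ℚ (z - 1)) := by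
  by_cases hz0 : 0 ≤ z
  · obtain ⟨n, rfl⟩ := Int.eq_ofNat_of_zero_le hz0
    have h1 : hz ℚ (n : ℤ) = hh ℚ n := by
      unfold hz
      rw [if_pos (by positivity), Int.toNat_natCast]
    rw [h1, psi_hh]
    rfl
  · have h1 : hz ℚ z = 0 := by
      unfold hz
      rw [if_neg hz0]
    have h2 : hz ℚ (z - 1) = 0 := by
      unfold hz
      rw [if_neg (by omega)]
    rw [h1, h2]
    simp

end TPath
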