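import Pool.Agent.Lib.MP_630b78_co.TP.Defs

/-!
# Three facts on the determinants
-/

namespace TPath

open MvPolynomial EllHall

theorem DT_congr (n : ℕ) (c c' : ℕ → ℤ) (h : ∀ i, i < n → c i = c' i) : DT n c = DT n c' := by
  unfold DT
  congr 1
  ext1 i j
  simp only [Matrix.of_apply]
  rw [h i i.2]

theorem DT_eq_rows (n : ℕ) (c : ℕ → ℤ) (i j : ℕ) (hi : i < n) (hj : j < n) (hij : i ≠ j) (h : c i = c j) : DT n c = 0 := by
  unfold DT
  refine Matrix.det_zero_of_row_eq (i := ⟨i, hi⟩) (j := ⟨j, hj⟩) (fun h' => hij (congrArg Fin.val h')) ?_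
  ext k
  simp only [Matrix.of_apply]
  rw [h]

theorem DT_last (n : ℕ) (c : ℕ → ℤ) (h : c n = - (n : ℤ)) : DT (n + 1) c = DT n c := by
  unfold DT
  rw [Matrix.det_succ_row _ (Fin.last n), Finset.sum_eq_single (Fin.last n)]
  · have h1 : hz ℚ (c ((Fin.last n : Fin (n + 1)) : ℕ) + (((Fin.last n : Fin (n + 1)) : ℕ) : ℤ)) = 1 := by
      rw [Fin.val_last, h, neg_add_cancel]
      unfold hz
      rw [if_pos le_rfl, Int.toNat_zero, hh]
    rw [Matrix.of_apply, h1, mul_one, ← two_mul, pow_mul, neg_one_sq, one_pow, one_mul]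
    congr 1
    ext1 i j
    simp only [Matrix.submatrix_apply, Matrix.of_apply, Fin.succAbove_last, Fin.val_castSucc]
  · intro j _ hj
    have hj' : (j : ℕ) < n := by
      have h2 := j.2
      have h3 : (j : ℕ) ≠ n := fun h4 => hj (Fin.ext h4)
      omega
    have h1 : hz ℚ (c ((Fin.last n : Fin (n + 1)) : ℕ) + (((j : Fin (n + 1)) : ℕ) : ℤ)) = 0 := by
      rw [Fin.val_last, h]
      unfold hz
      rw [if_neg (by omega)]
    rw [Matrix.of_apply, h1, mul_zero, zero_mul]
  · intro h2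
    exact absurd (Finset.mem_univ _) h2

end TPath
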