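import Pool.Agent.Lib.MP_630b78_co.TP.Pieri

/-!
# The coefficients are natural numbers
-/

namespace TPath

open MvPolynomial EllHall

private theorem Val_sum {ι : Type} (s : Finset ι) (f : ι → ℚ) (h : ∀ i ∈ s, ∃ n : ℕ, f i = n) : ∃ n : ℕ, ∑ i ∈ s, f i = n := by
  classical
  induction s using Finset.induction_on with
  | empty => exact ⟨0, by simp⟩
  | insert a s ha ih =>
    obtain ⟨n, hn⟩ := ih fun i hi => h i (Finset.mem_insert_of_mem hi)
    obtain ⟨m, hm⟩ := h a (Finset.mem_insert_self a s)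
    exact ⟨m + n, by rw [Finset.sum_insert ha, hn, hm, Nat.cast_add]⟩

private theorem Val_mi (p : ℕ) (ν : ℕ → ℕ) (hp : ∀ i, i < p ↔ 1 ≤ ν i) (s : Finset ℕ) (hs : s ⊆ Finset.range p) :
    ∑ i ∈ Finset.range p, mi ν s i + s.card = ∑ i ∈ Finset.range p, ν i := by
  have h1 : s.card = ∑ i ∈ Finset.range p, if i ∈ s then 1 else 0 := by
    rw [← Finset.sum_filter, Finset.sum_const, smul_eq_mul, mul_one, Finset.filter_mem_eq_inter,
      Finset.inter_eq_right.2 hs]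
  rw [h1, ← Finset.sum_add_distrib]
  refine Finset.sum_congr rfl fun i hi => ?_
  have h2 := (hp i).1 (Finset.mem_range.1 hi)
  unfold mi
  split_ifs
  · omega
  · omega

private theorem Val_pos (p : ℕ) (μ : ℕ → ℕ) (hμ : Antitone μ) (h0 : ∀ i, p ≤ i → μ i = 0) :
    ∃ q, q ≤ p ∧ (∀ i, i < q ↔ 1 ≤ μ i) ∧ ∑ i ∈ Finset.range q, μ i = ∑ i ∈ Finset.range p, μ i := by
  classical
  have hex : ∃ i, μ i = 0 := ⟨p, h0 p le_rfl⟩
  refine ⟨Nat.find hex, Nat.find_min' hex (h0 p le_rfl), fun i => ⟨fun hi => ?_, fun hi => ?_⟩, ?_⟩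
  · exact Nat.one_le_iff_ne_zero.2 (Nat.find_min hex hi)
  · by_contra hc
    have h1 := hμ (not_lt.1 hc)
    have h2 := Nat.find_spec hex
    omega
  · refine Finset.sum_subset (Finset.range_subset_range.2 (Nat.find_min' hex (h0 p le_rfl))) fun i _ hi => ?_
    have h1 : Nat.find hex ≤ i := not_lt.1 fun h => hi (Finset.mem_range.2 h)
    have h2 := hμ h1
    have h3 := Nat.find_spec hex
    omega

private theorem Val_term (β : Multiset ℕ) (ih : ∀ (p : ℕ) (ν : ℕ → ℕ), Antitone ν → (∀ i, i < p ↔ 1 ≤ ν i) →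
      ∑ i ∈ Finset.range p, ν i + p ≤ β.sum →
      ∃ n : ℕ, hall ((β.map (ee ℚ)).prod) (SX (β.sum - ∑ i ∈ Finset.range p, ν i) ν) = n)
    (p : ℕ) (ν : ℕ → ℕ) (hν : Antitone ν) (hp : ∀ i, i < p ↔ 1 ≤ ν i) (s : Finset ℕ) (hs : s ⊆ Finset.range p)
    (hc : ∑ i ∈ Finset.range p, ν i + p ≤ β.sum + s.card) :
    ∃ n : ℕ, hall ((β.map (ee ℚ)).prod) (SX (β.sum + s.card - ∑ i ∈ Finset.range p, ν i) (mi ν s)) = n := by
  by_cases ha : Antitone (mi ν s)
  · have h0 : ∀ i, p ≤ i → mi ν s i = 0 := fun i hi => by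
      have h1 : ¬ 1 ≤ ν i := fun h => absurd ((hp i).2 h) (not_lt.2 hi)
      unfold mi
      omega
    obtain ⟨q, hq, hq1, hq2⟩ := Val_pos p (mi ν s) ha h0
    have h3 := Val_mi p ν hp s hs
    have h4 : ∑ i ∈ Finset.range q, mi ν s i + q ≤ β.sum := by omega
    obtain ⟨n, hn⟩ := ih q (mi ν s) ha hq1 h4
    refine ⟨n, ?_⟩
    rw [← hn]
    congr 2
    omega
  · refine ⟨0, ?_⟩
    rw [SX_mi_zero _ p ν hν hp (by omega) s hs ha]
    have h1 := hall_smul_right (0 : ℚ) ((β.map (ee ℚ)).prod) 0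
    rw [zero_smul, zero_mul] at h1
    rw [h1, Nat.cast_zero]

theorem val (α : Multiset ℕ) : ∀ (p : ℕ) (ν : ℕ → ℕ), Antitone ν → (∀ i, i < p ↔ 1 ≤ ν i) →
    ∑ i ∈ Finset.range p, ν i + p ≤ α.sum →
    ∃ n : ℕ, hall ((α.map (ee ℚ)).prod) (SX (α.sum - ∑ i ∈ Finset.range p, ν i) ν) = n := by
  induction α using Multiset.induction_on with
  | empty =>
    intro p ν hν hp h
    refine ⟨1, ?_⟩
    rw [Multiset.sum_zero, Nat.zero_sub, Multiset.map_zero, Multiset.prod_zero, hall_one]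
    unfold SX DT
    rw [Matrix.det_isEmpty, map_one, Nat.cast_one]
  | cons x β ih =>
    intro p ν hν hp h
    rw [Multiset.sum_cons] at h ⊢
    rw [Multiset.map_cons, Multiset.prod_cons, add_comm x β.sum, pieri x β.sum _ p ν hp (by omega)]
    refine Val_sum _ _ fun s hs => ?_
    split_ifs with hc
    · exact Val_term β ih p ν hν hp s (Finset.mem_powerset.1 hs) hc.2
    · exact ⟨0, by rw [Nat.cast_zero]⟩

theorem mono (x : ℕ) (α : Multiset ℕ) (p : ℕ) (ν : ℕ → ℕ) (hν : Antitone ν) (hp : ∀ i, i < p ↔ 1 ≤ ν i)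
    (h : ∑ i ∈ Finset.range p, ν i + p ≤ α.sum + x) :
    ∃ n : ℕ, hall (ee ℚ (x + 1) * (α.map (ee ℚ)).prod) (SX (α.sum + (x + 1) - ∑ i ∈ Finset.range p, ν i) ν) =
      hall (ee ℚ x * (α.map (ee ℚ)).prod) (SX (α.sum + x - ∑ i ∈ Finset.range p, ν i) ν) + n := by
  rw [pieri (x + 1) α.sum _ p ν hp (by omega), pieri x α.sum _ p ν hp h]
  have h1 : ∃ n : ℕ, ∑ s ∈ (Finset.range p).powerset, (if s.card = x + 1 ∧ ∑ i ∈ Finset.range p, ν i + p ≤ α.sum + s.card then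
      hall ((α.map (ee ℚ)).prod) (SX (α.sum + s.card - ∑ i ∈ Finset.range p, ν i) (mi ν s)) else 0) = n := by
    refine Val_sum _ _ fun s hs => ?_
    split_ifs with hc
    · exact Val_term α (val α) p ν hν hp s (Finset.mem_powerset.1 hs) hc.2
    · exact ⟨0, by rw [Nat.cast_zero]⟩
  obtain ⟨n, hn⟩ := h1
  refine ⟨n, ?_⟩
  rw [← hn, ← Finset.sum_add_distrib]
  refine Finset.sum_congr rfl fun s _ => ?_
  by_cases hb : ∑ i ∈ Finset.range p, ν i + p ≤ α.sum + s.card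
  · rcases lt_trichotomy s.card (x + 1) with hx | hx | hx
    · rw [if_pos ⟨hx.le, hb⟩, if_pos ⟨by omega, hb⟩, if_neg (fun h => hx.ne h.1), add_zero]
    · rw [if_pos ⟨hx.le, hb⟩, if_neg (fun h => by omega), if_pos ⟨hx, hb⟩, zero_add]
    · rw [if_neg (fun h => by omega), if_neg (fun h => by omega), if_neg (fun h => by omega), add_zero]
  · rw [if_neg (fun h => hb h.2), if_neg (fun h => hb h.2), if_neg (fun h => hb h.2), add_zero]

end TPath
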